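import Pool.Agent.helper64.PB.Defs

/-!
# pb:* rows, block A: calculus of circuits over a basis

Problem MP_069684_lc (P/Poly versus NP/Poly). Every `XX_stmt` is one row `pb:XX`; its complete proof is in its docstring.
File `Pool/Agent/<seat>/PB/XX.lean`, `namespace Pool.Agent.PB`, auxiliary lemmas prefixed `XX_`; other rows only as
hypotheses (exact theorem line in the lock note).

THE THEOREM (paper proof). `G` a finite basis, `[G]` the functions computed by circuits over `G` (`InCl G`),
`L_G` = `Size G`, `L` = `Size std`, `Lmon` = `Size mon`.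
(T) `Trivial G`: `L_G(f) ≤ c n` on `[G]`.
(W) `Weak G`: for every monotone `h` there is `f ∈ [G]` with `L(f) ≤ c (L(h) + n)`, `Lmon(h) ≤ c (L_G(f) + 1)`.
(E) otherwise `L_G(f) ≤ c (L(f) + n)` on `[G]`.
-/

set_option autoImplicit false

namespace Pool.Agent.PB

/-- `f` is available after the program `l`: it was computed or is a variable. -/
def Av {n : ℕ} (l : List (BF n)) (f : BF n) : Prop := f ∈ l ∨ ∃ j, f = fun x => x j

/-- `f` belongs to the closed class (clone) generated by `G`. -/
def InCl (G : Set Gate) {n : ℕ} (f : BF n) : Prop := ∃ s, Size G f s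

/-- The constant function. -/
def fC (b : Bool) (n : ℕ) : BF n := fun _ => b
/-- negation -/
def fNot : BF 1 := fun x => !(x 0)
/-- conjunction -/
def fAnd : BF 2 := fun x => x 0 && x 1
/-- disjunction -/
def fOr : BF 2 := fun x => x 0 || x 1
/-- sum modulo 2 -/
def fXor : BF 2 := fun x => xor (x 0) (x 1)
/-- majority of three -/
def fMaj : BF 3 := fun x => (x 0 && x 1) || (x 0 && x 2) || (x 1 && x 2)
/-- `maj(x, y, not z)` -/
def fD : BF 3 := fun x => (x 0 && x 1) || (x 0 && !(x 2)) || (x 1 && !(x 2))
/-- `x and (y or not z)` -/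
def fM : BF 3 := fun x => x 0 && (x 1 || !(x 2))
/-- `x and (y or z)` -/
def fAO : BF 3 := fun x => x 0 && (x 1 || x 2)
/-- `x or (y and z)` -/
def fOA : BF 3 := fun x => x 0 || (x 1 && x 2)
/-- at least `k` of the `k + 1` variables are 1 (i.e. no two of them are 0) -/
def fT (k : ℕ) : BF (k + 1) := fun x => decide (∀ i j : Fin (k + 1), i ≠ j → x i = true ∨ x j = true)
/-- the conjunction of all variables -/
def allAnd (n : ℕ) : BF n := fun x => decide (∀ i, x i = true)
/-- the disjunction of all variables -/
def allOr (n : ℕ) : BF n := fun x => decide (∃ i, x i = true)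

/-- APP (short). Induction on the second argument of `Prog G n l` (the list `l`): the arguments of a gate that are in `l`
are in `l ++ l'`. -/
def APP_stmt : Prop :=
  ∀ (G : Set Gate) (n : ℕ) (l l' : List (BF n)), Prog G n l → Prog G n l' → Prog G n (l ++ l')

/-- SUB (short-medium). Substitution. Induction on the program `L` of `F` over `m` variables: there is `l'` with
`l'.length = L.length`, `Prog G n (l' ++ l)` and `u ∘ φ ∈ l' ++ l` for all `u ∈ L`: for the new gate `g` with arguments
`a i` take `g` applied to `(a i) ∘ φ`, which is available (`a i ∈ L`: induction; `a i` a variable `x_j`: `φ j`). -/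
def SUB_stmt : Prop :=
  ∀ (G : Set Gate) (m n : ℕ) (F : BF m) (s : ℕ) (l : List (BF n)) (φ : Fin m → BF n),
    Size G F s → Prog G n l → (∀ i, Av l (φ i)) →
    ∃ l', Prog G n (l' ++ l) ∧ l'.length ≤ s ∧ Av (l' ++ l) (fun x => F fun i => φ i x)

/-- CMP (short). From APP, SUB: join the programs of the `φ i` (APP, induction over `Fin m`), then SUB. -/
def CMP_stmt : Prop :=
  ∀ (G : Set Gate) (m n : ℕ) (F : BF m) (φ : Fin m → BF n) (s : ℕ) (t : Fin m → ℕ),
    Size G F s → (∀ i, Size G (φ i) (t i)) → Size G (fun x => F fun i => φ i x) (s + ∑ i, t i)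

/-- CLP (short). From CMP: `[G]` is closed under composition and contains the variables. -/
def CLP_stmt : Prop :=
  (∀ (G : Set Gate) (n : ℕ) (j : Fin n), InCl G (fun x : Fin n → Bool => x j)) ∧
  ∀ (G : Set Gate) (m n : ℕ) (F : BF m) (φ : Fin m → BF n), InCl G F → (∀ i, InCl G (φ i)) →
    InCl G (fun x => F fun i => φ i x)

/-- TRB (short-medium). From SUB. Translation of bases: let `c` bound the sizes over `G` of the finitely many gates of
`G'`; every gate of a program over `G'` is replaced by at most `c` gates over `G` (SUB with the function `g.2`; the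
functions of the given program stay available). -/
def TRB_stmt : Prop :=
  ∀ (G G' : Set Gate), G'.Finite → (∀ g ∈ G', InCl G g.2) →
    ∃ c : ℕ, ∀ (n : ℕ) (f : BF n) (s : ℕ), Size G' f s → Size G f (c * s)

/-- PRP (short-medium). The properties are inherited by `[G]`: each holds for the variables and is closed under
composition. For `Inter k`: `k` ones of `g(a_1, ..., a_r)` give `k` ones of `g` with a common coordinate `i`, so the `k`
points are ones of `a_i`. For `Star`: if `g ≤ y_i` and `a_i ≤ x_j` then the composition is `≤ x_j`; if `g = 0` or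
`a_i = 0` it is `0`. For the last two: `g(0..0) = 0` (all gates), respectively `g(1..1) = 1`. -/
def PRP_stmt : Prop :=
  ∀ (G : Set Gate) (n : ℕ) (f : BF n), InCl G f →
    ((∀ g ∈ G, Affine g.2) → Affine f) ∧ ((∀ g ∈ G, Conj g.2) → Conj f) ∧ ((∀ g ∈ G, Disj g.2) → Disj f) ∧
    ((∀ g ∈ G, Mono g.2) → Mono f) ∧ ((∀ g ∈ G, SelfDual g.2) → SelfDual f) ∧
    (∀ k, (∀ g ∈ G, Inter k g.2) → Inter k f) ∧ ((∀ g ∈ G, Star g.2) → Star f) ∧
    ((∀ g ∈ G, g.2 (fun _ => false) = false) → f (fun _ => false) = false) ∧
    ((∀ g ∈ G, g.2 (fun _ => true) = true) → f (fun _ => true) = true)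

/-- DUA (short-medium). Duality: `dual (dual f) = f`, `dualB (dualB G) = G`, a program `l` over `G` gives the program
`l.map dual` over `dualB G` (the dual of `g(a_1, ..., a_r)` is the dual of `g` applied to the duals of the `a_i`, the dual
of a variable is the variable), the standard and the monotone basis are self-dual, and the properties are exchanged. -/
def DUA_stmt : Prop :=
  (∀ (n : ℕ) (f : BF n), dual (dual f) = f) ∧ (∀ G : Set Gate, dualB (dualB G) = G) ∧
  (∀ G : Set Gate, G.Finite → (dualB G).Finite) ∧
  (∀ (G : Set Gate) (n : ℕ) (f : BF n) (s : ℕ), Size (dualB G) (dual f) s ↔ Size G f s) ∧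
  (∀ (n : ℕ) (f : BF n) (s : ℕ), Size std (dual f) s ↔ Size std f s) ∧
  (∀ (n : ℕ) (f : BF n) (s : ℕ), Size mon (dual f) s ↔ Size mon f s) ∧
  (∀ (n : ℕ) (f : BF n), (Mono (dual f) ↔ Mono f) ∧ (Affine (dual f) ↔ Affine f) ∧ (Conj (dual f) ↔ Disj f) ∧
    (Disj (dual f) ↔ Conj f) ∧ (SelfDual (dual f) ↔ SelfDual f))

/-- DNF (short-medium). Every function has a circuit over `std`, every monotone function over `mon`. Induction on `n`
(`n = 0`: a constant gate; `n + 1`: `f = (x_0 and f|_{x_0=1}) or (not x_0 and f|_{x_0=0})`, for monotone `f` without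
`not x_0`), or disjunctive normal form. -/
def DNF_stmt : Prop :=
  (∀ (n : ℕ) (f : BF n), InCl std f) ∧ ∀ (n : ℕ) (f : BF n), Mono f → InCl mon f

/-- MTR (short). From TRB, DNF. -/
def MTR_stmt : Prop :=
  ∀ G : Set Gate, G.Finite → (∀ g ∈ G, Mono g.2) →
    ∃ c : ℕ, ∀ (n : ℕ) (f : BF n) (s : ℕ), Size G f s → Size mon f (c * s)

/-- STR (short). From TRB, DNF: every finite basis is simulated by the standard basis. -/
def STR_stmt : Prop :=
  ∀ G : Set Gate, G.Finite → ∃ c : ℕ, ∀ (n : ℕ) (f : BF n) (s : ℕ), Size G f s → Size std f (c * s)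

/-- ALA (short-medium). From CMP (or SUB): `x_0 and ... and x_(n-1)` by `n - 1` conjunctions; `c` = size of `fAnd`.
(`allAnd (n+1)` is `fAnd` applied to (`allAnd n` of the first variables) and the last one; for the size use SUB: substitute
the program of `allAnd n` into `n + 1` variables, then `fAnd`.) -/
def ALA_stmt : Prop :=
  ∀ (G : Set Gate), InCl G fAnd → ∃ c : ℕ, ∀ n, 1 ≤ n → Size G (allAnd n) (c * n)

/-- ALO (short). From ALA, DUA: the same for `fOr` and `allOr` (or directly as in ALA). -/
def ALO_stmt : Prop :=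
  ∀ (G : Set Gate), InCl G fOr → ∃ c : ℕ, ∀ n, 1 ≤ n → Size G (allOr n) (c * n)

/-- SIM (short-medium). From SUB. The simulation lemma. `S : BF n → BF n` attaches to every function a shadow; the program
`l0` over `G` makes the pseudo-constants `t`, `b`, the shadows of the variables and of the constants available; the shadows
of `u and v`, `u or v`, `not u` are computed from the shadows of `u`, `v` and from `t`, `b` by functions `Γa`, `Γo`, `Γn` of
size `≤ c0`. Induction on a program over `std`: there is a program `l' ++ l0` over `G` with `l'.length ≤ c0 * (number of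
gates)` in which the shadows of all functions of the program are available. -/
def SIM_stmt : Prop :=
  ∀ (G : Set Gate) (n : ℕ) (S : BF n → BF n) (t b : BF n) (l0 : List (BF n)) (c0 : ℕ) (Γa Γo : BF 4) (Γn : BF 3),
    Prog G n l0 → Av l0 t → Av l0 b → (∀ j, Av l0 (S fun x => x j)) → (∀ v, Av l0 (S (fC v n))) →
    Size G Γa c0 → Size G Γo c0 → Size G Γn c0 →
    (∀ u v : BF n, (S fun x => u x && v x) = fun x => Γa ![S u x, S v x, t x, b x]) →
    (∀ u v : BF n, (S fun x => u x || v x) = fun x => Γo ![S u x, S v x, t x, b x]) →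
    (∀ u : BF n, (S fun x => !(u x)) = fun x => Γn ![S u x, t x, b x]) →
    ∀ (f : BF n) (s : ℕ), Size std f s → Size G (S f) (l0.length + c0 * s)

end Pool.Agent.PB
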