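import Pool.Agent.helper64.PB.SpecW

/-!
# pb:* rows, block F: a monotone function with small circuits and exponential monotone circuits

`K` is a finite field of characteristic 2 with `q` elements, the inputs are the subsets `x` of the grid `K × K`
(`(α, y)`: column `α`). The function `SP c J x`: some `V ⊆ x` has an odd number of points in every column and power sums
`S_j(α) = ∑_{y ∈ V_α} y^j`, `1 ≤ j ≤ 2J`, which are polynomials in `α` of degree `≤ c j`. It is monotone, it accepts the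
graphs of all polynomials of degree `≤ c`, and it is a linear system over `F_2` in the indicator of `V`, so it has polynomial
size circuits. It rejects most unions of `G` random partial sections with `p` points in every column (`J = G p`).

Parameters: `t = 2^e`, `q = 2^(8e)`, `c = 2t`, `p = 16t`, `L = q/p = 2^(7e-4)`, `G = t^2`, `J = G p = 2^(3e+4)`, `e ≥ 16`.
A round `ψ : K × Fin p → Fin L` chooses one point in each of the `p` blocks (of `L` points each) of every column; a sample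
`ω` consists of `G` rounds.
-/

set_option autoImplicit false

namespace Pool.Agent.PB

open Finset Polynomial

section
variable {K : Type} [Field K] [Fintype K] [DecidableEq K]

/-- the column of `V` over `α` -/
def col (V : Finset (K × K)) (α : K) : Finset K := univ.filter fun y => (α, y) ∈ V

/-- odd columns and polynomial power sums -/
def Good (c J : ℕ) (V : Finset (K × K)) : Prop :=
  (∀ α, Odd (col V α).card) ∧
    ∀ j, 1 ≤ j → j ≤ 2 * J → ∃ P : K[X], P.natDegree ≤ c * j ∧ ∀ α, ∑ y ∈ col V α, y ^ j = P.eval α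

/-- the base function -/
def SP (c J : ℕ) (x : K × K → Bool) : Prop := ∃ V : Finset (K × K), (∀ z ∈ V, x z = true) ∧ Good c J V

/-- the polynomial function with coefficients `a` -/
def pol {c : ℕ} (a : Fin (c + 1) → K) (α : K) : K := ∑ i, a i * α ^ (i : ℕ)

/-- the graph of a polynomial -/
def gr {c : ℕ} (a : Fin (c + 1) → K) (z : K × K) : Bool := decide (z.2 = pol a z.1)

/-- The coefficients of the locator polynomial: signed minors of the Hankel matrix `S_(i+j)`, `i < w`, `j ≤ w`. -/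
def hk {R : Type} [CommRing R] (S : ℕ → R) (w : ℕ) (j : Fin (w + 1)) : R :=
  (-1) ^ (w + (j : ℕ)) * Matrix.det (Matrix.of fun i l : Fin w => S ((i : ℕ) + (j.succAbove l : ℕ)))

/-- one round hits the point `z` -/
def hit {p L : ℕ} (ε : K ≃ Fin p × Fin L) (ψ : K × Fin p → Fin L) (z : K × K) : Prop :=
  ψ (z.1, (ε z.2).1) = (ε z.2).2

instance {p L : ℕ} (ε : K ≃ Fin p × Fin L) (ψ : K × Fin p → Fin L) (z : K × K) : Decidable (hit ε ψ z) := by
  unfold hit
  infer_instance

/-- the negative input of the sample `ω` -/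
def Ng {p L G : ℕ} (ε : K ≃ Fin p × Fin L) (ω : Fin G → (K × Fin p → Fin L)) (z : K × K) : Bool :=
  decide (∃ g, hit ε (ω g) z)

/-- at most one point in every column -/
def PF (B : Finset (K × K)) : Prop := ∀ z ∈ B, ∀ z' ∈ B, z.1 = z'.1 → z = z'

/-- the family `𝓑` accepts `x` -/
def Acc (𝓑 : Finset (Finset (K × K))) (x : K × K → Bool) : Prop := ∃ B ∈ 𝓑, ∀ z ∈ B, x z = true

end

/-! ### The function -/

/-- FPO (short). `V` = the graph; column `α` is `{pol a α}`, `S_j(α) = (pol a α)^j`, the polynomial `P^j` with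
`P = ∑ a_i X^i` of degree `≤ c`. -/
def FPO_stmt : Prop :=
  ∀ (K : Type) [Field K] [Fintype K] [DecidableEq K] (c J : ℕ) (a : Fin (c + 1) → K) (x : K × K → Bool),
    (∀ α, x (α, pol a α) = true) → SP c J x

/-- HNK (medium). Let `V ⊆ K` be finite, `S_m = ∑_{y ∈ V} y^m`. The Hankel matrix `(S_(i+l))_{i,l < w}` is `Uᵀ U` with
`U = (y^i)_{y ∈ V, i < w}`; its determinant is `hk S w (Fin.last w)` (the sign is `(-1)^(2w) = 1`, `succAbove` of the last is the
inclusion). If `#V < w` it is 0 (rank `≤ #V`), if `#V = w` it is the square of a Vandermonde determinant, not 0. Let `#V = w` and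
`D(Y)` = the determinant of the matrix with the rows `(S_i, ..., S_(i+w))`, `i < w`, and the last row `(1, Y, ..., Y^w)`;
expansion along the last row: `D(Y) = ∑_j hk S w j * Y^j`. For `Y ∈ V` the last row is in the `w`-dimensional span of the
vectors `(y^j)_{j ≤ w}`, `y ∈ V`, which contains all rows, so `D(Y) = 0`. `D` is a polynomial in `Y` of degree exactly `w`
(leading coefficient `hk S w (last) ≠ 0`), so its roots are exactly the `w` elements of `V`. -/
def HNK_stmt : Prop :=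
  ∀ (K : Type) [Field K] [DecidableEq K] (V : Finset K) (w : ℕ),
    (V.card < w → hk (fun m => ∑ y ∈ V, y ^ m) w (Fin.last w) = 0) ∧
    (V.card = w → hk (fun m => ∑ y ∈ V, y ^ m) w (Fin.last w) ≠ 0 ∧
      ∀ Y : K, (∑ j : Fin (w + 1), hk (fun m => ∑ y ∈ V, y ^ m) w j * Y ^ (j : ℕ)) = 0 ↔ Y ∈ V)

/-- DEG (short-medium). The determinant is a sum of products `∏_{i < w} S_(i + j.succAbove (σ i))`, of degree at most
`c (∑_i i + ∑_l (j.succAbove l)) ≤ c (w(w-1)/2 + w(w+1)/2) = c w^2`. All indices are `≤ 2w`. -/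
def DEG_stmt : Prop :=
  ∀ (K : Type) [Field K] (S : ℕ → K[X]) (c w : ℕ), (∀ m, m ≤ 2 * w → (S m).natDegree ≤ c * m) →
    ∀ j : Fin (w + 1), (hk S w j).natDegree ≤ c * w ^ 2

/-- CRV (medium). From HNK, DEG. Let `V` be as in `SP`, all columns of `x` have `≤ J` points. `w` = the maximum of the `#V_α`,
`1 ≤ w ≤ J` (odd numbers). `S_0 = 1` (characteristic 2), `S_j` the polynomials of `Good` for `1 ≤ j ≤ 2J` (0 for larger `j`).
`Λ_j = hk S w j`, of degree `≤ c w^2`; the value of `Λ_j` at `α` is `hk (S_m(V_α)) w j` (`RingHom.map_det`; indices `≤ 2w ≤ 2J`).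
`T = {α : Λ_w(α) ≠ 0}` is the set of `α` with `#V_α = w`; it is not empty, so `Λ_w ≠ 0` has at most `c w^2` roots and
`#T ≥ q - c w^2`. For `α ∈ T` take `Z = V_α`. -/
def CRV_stmt : Prop :=
  ∀ (K : Type) [Field K] [Fintype K] [DecidableEq K] [CharP K 2] (c J : ℕ) (x : K × K → Bool), SP c J x →
    (∀ α, (univ.filter fun y => x (α, y) = true).card ≤ J) →
    ∃ w, 1 ≤ w ∧ w ≤ J ∧ ∃ Λ : Fin (w + 1) → K[X], (∀ j, (Λ j).natDegree ≤ c * w ^ 2) ∧
      ∃ T : Finset K, Fintype.card K ≤ T.card + c * w ^ 2 ∧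
        ∀ α ∈ T, ∃ Z : Finset K, Z.card = w ∧
          (∀ y, y ∈ Z ↔ (∑ j : Fin (w + 1), (Λ j).eval α * y ^ (j : ℕ)) = 0) ∧ ∀ y ∈ Z, x (α, y) = true

/-- PRB (short-medium). The number of samples whose negative input contains a given set `S`. For every map `γ : S → Fin G`
the samples with `hit (ω (γ z)) z` for all `z ∈ S` prescribe the value of `ω (γ z)` at the cell `(z.1, (ε z.2).1)`; for different
`z` with the same cell and the same `γ z` the prescribed values are different, then there is none; otherwise `#S` different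
values of the function `(g, cell) ↦ ω g cell` are prescribed, which leaves `#Ω / L^(#S)` samples. -/
def PRB_stmt : Prop :=
  ∀ (K : Type) [Field K] [Fintype K] [DecidableEq K] (p L G : ℕ) (ε : K ≃ Fin p × Fin L) (S : Finset (K × K)),
    (univ.filter fun ω : Fin G → (K × Fin p → Fin L) => ∀ z ∈ S, Ng ε ω z = true).card * L ^ S.card ≤
      G ^ S.card * Fintype.card (Fin G → (K × Fin p → Fin L))

/-- NGC (short). Every column of `Ng ε ω` has at most `G p` points (`y` is determined by `g` and its block). -/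
def NGC_stmt : Prop :=
  ∀ (K : Type) [Field K] [Fintype K] [DecidableEq K] (p L G : ℕ) (ε : K ≃ Fin p × Fin L)
    (ω : Fin G → (K × Fin p → Fin L)) (α : K), (univ.filter fun y => Ng ε ω (α, y) = true).card ≤ G * p

/-- NUB (medium). From CRV, PRB, NGC. Union bound: if `SP c (G p) (Ng ε ω)` then for some `1 ≤ w ≤ G p`, some
`Λ : Fin (w + 1) → K[X]` of degrees `≤ D = c w^2` (there are `q^((w+1)(D+1))` of them) and some `T` with `#T ≥ q - D` (at most
`2^q`) the set `S = {(α, y) : α ∈ T, Λ(α, y) = 0}`, of cardinality `w #T`, is contained in `Ng ε ω`. With PRB, `G ≤ L` and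
`2 c w^2 ≤ q`, so `#S ≥ w q/2`, i.e. `2 #S ≥ w q`: at most `#Ω (G/L)^(wq/2)` samples for each. (`q` is even; `G ≤ L`.) -/
def NUB_stmt : Prop :=
  ∀ (K : Type) [Field K] [Fintype K] [DecidableEq K] [CharP K 2] (c p L G h : ℕ) (ε : K ≃ Fin p × Fin L),
    Fintype.card K = 2 * h → G ≤ L → 1 ≤ L → 2 * (c * (G * p) ^ 2) ≤ Fintype.card K →
    ((Nat.card {ω : Fin G → (K × Fin p → Fin L) // SP c (G * p) (Ng ε ω)} : ℕ) : ℝ) ≤
      ∑ w ∈ Finset.Icc 1 (G * p), (Fintype.card K : ℝ) ^ ((w + 1) * (c * w ^ 2 + 1)) * 2 ^ (Fintype.card K) *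
        ((G : ℝ) / L) ^ (w * h) * Fintype.card (Fin G → (K × Fin p → Fin L))

/-- NEG (short-medium). From NUB. Numbers: `q = 2^(8e)`, `c = 2 * 2^e = 2^(e+1)`, `p = 16 * 2^e = 2^(e+4)`, `L = 2^(7e-4)`,
`G = 2^(2e)`, `J = G p = 2^(3e+4)`, `e ≥ 16`. `2 c J^2 = 2^(7e+10) ≤ q`. For `w ≤ J`: `(w+1)(c w^2 + 1) ≤ 4 c w^3 ≤ w 2^(7e+11)`, so the
logarithm to the base 2 of the term `w` is at most `8e w 2^(7e+11) + 2^(8e) - w 2^(8e-1) (5e-4) ≤
w 2^(8e) (e 2^(14-e) + 1 - (5e-4)/2) ≤ - w 2^(8e)`; the sum is `≤ 1/2`. -/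
def NEG_stmt : Prop :=
  ∀ (K : Type) [Field K] [Fintype K] [DecidableEq K] [CharP K 2] (e : ℕ)
    (ε : K ≃ Fin (16 * 2 ^ e) × Fin (2 ^ (7 * e - 4))), 16 ≤ e → Fintype.card K = 2 ^ (8 * e) →
    Nat.card {ω : Fin (2 ^ (2 * e)) → (K × Fin (16 * 2 ^ e) → Fin (2 ^ (7 * e - 4))) //
        SP (2 * 2 ^ e) (2 ^ (3 * e + 4)) (Ng ε ω)} * 2 ≤
      Fintype.card (Fin (2 ^ (2 * e)) → (K × Fin (16 * 2 ^ e) → Fin (2 ^ (7 * e - 4))))

/-! ### The approximation method -/

/-- SPF (short-medium). Choose `Y` of maximal cardinality with `k^(j - #Y) < #{B ∈ 𝓕 : Y ⊆ B}` among all `Y` with `#Y ≤ j`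
(`Y = ∅` qualifies). `#Y < j`, since at most one `B` of cardinality `j` contains `Y` if `#Y = j`. For `Y ⊂ Z`: if `#Z ≤ j` by
maximality, if `#Z > j` the number is 0. -/
def SPF_stmt : Prop :=
  ∀ (P : Type) [DecidableEq P] (𝓕 : Finset (Finset P)) (j k : ℕ), (∀ B ∈ 𝓕, B.card = j) → k ^ j < 𝓕.card →
    ∃ Y : Finset P, Y.card < j ∧ k ^ (j - Y.card) < (𝓕.filter fun B => Y ⊆ B).card ∧
      ∀ Z : Finset P, Y ⊂ Z → Z.card ≤ j → (𝓕.filter fun B => Z ⊆ B).card ≤ k ^ (j - Z.card)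

/-- SM2 (medium). Second moment. `X(ψ) = #{B ∈ 𝓖 : ψ hits all of B}`. For a set `S` of points the proportion of `ψ` hitting
all of `S` is `L^(-#S)` if different points of `S` lie in different cells `(z.1, (ε z.2).1)`, and 0 otherwise; for `PF` sets it is
`L^(-#S)`. So `E X = #𝓖 L^(-i)` and `E X^2 ≤ ∑_{B,B'} L^(-2i + #(B ∩ B'))`. `L^(#(B∩B')) = ∑_{Z ⊆ B ∩ B'} (L-1)^(#Z)`, and
`∑_{B'} ... ≤ ∑_{Z ⊆ B} L^(#Z) #{B' ⊇ Z} ≤ #𝓖 (1 + 1/(4t))^i ≤ 2 #𝓖` (`i ≤ 2t`, `(1 + 1/(4t))^(2t) ≤ exp(1/2) < 2`). By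
Cauchy-Schwarz the proportion of `X > 0` is `≥ (E X)^2 / E X^2 ≥ 1/2`. -/
def SM2_stmt : Prop :=
  ∀ (K : Type) [Field K] [Fintype K] [DecidableEq K] (p L t i : ℕ) (ε : K ≃ Fin p × Fin L)
    (𝓖 : Finset (Finset (K × K))), 1 ≤ L → 1 ≤ t → i ≤ 2 * t → 𝓖.Nonempty → (∀ B ∈ 𝓖, PF B ∧ B.card = i) →
    (∀ Z : Finset (K × K), (𝓖.filter fun B => Z ⊆ B).card * (4 * t * L) ^ Z.card ≤ 𝓖.card) →
    Fintype.card (K × Fin p → Fin L) ≤
      (univ.filter fun ψ : K × Fin p → Fin L => ∃ B ∈ 𝓖, ∀ z ∈ B, hit ε ψ z).card * 2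

/-- GRP (short). From SM2: the rounds are independent, so at most `#Ω / 2^G` samples have no round which hits some `B ∈ 𝓖`. -/
def GRP_stmt : Prop :=
  ∀ (K : Type) [Field K] [Fintype K] [DecidableEq K] (p L G t i : ℕ) (ε : K ≃ Fin p × Fin L)
    (𝓖 : Finset (Finset (K × K))), 1 ≤ L → 1 ≤ t → i ≤ 2 * t → 𝓖.Nonempty → (∀ B ∈ 𝓖, PF B ∧ B.card = i) →
    (∀ Z : Finset (K × K), (𝓖.filter fun B => Z ⊆ B).card * (4 * t * L) ^ Z.card ≤ 𝓖.card) →
    (univ.filter fun ω : Fin G → (K × Fin p → Fin L) => ¬ ∃ B ∈ 𝓖, ∀ z ∈ B, Ng ε ω z = true).card * 2 ^ G ≤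
      Fintype.card (Fin G → (K × Fin p → Fin L))

/-- `𝓐` consists of `PF` sets with at most `2t` elements and contains every such set `A` for which at most `#Ω / 2^G`
samples `ω` have no `B ∈ 𝓐` in `A ∪ Ng ω`. -/
def Clsd {K : Type} [Field K] [Fintype K] [DecidableEq K] {p L : ℕ} (G t : ℕ) (ε : K ≃ Fin p × Fin L)
    (𝓐 : Finset (Finset (K × K))) : Prop :=
  (∀ B ∈ 𝓐, PF B ∧ B.card ≤ 2 * t) ∧
  ∀ A : Finset (K × K), PF A → A.card ≤ 2 * t →
    (univ.filter fun ω : Fin G → (K × Fin p → Fin L) =>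
      ¬ ∃ B ∈ 𝓐, ∀ z ∈ B, z ∈ A ∨ Ng ε ω z = true).card * 2 ^ G ≤ Fintype.card (Fin G → (K × Fin p → Fin L)) →
    A ∈ 𝓐

/-- CLO (medium). Closure. Induction on the number `m` of `PF` sets with at most `2t` elements not in `𝓑`: if `𝓑` is closed take
`𝓐 = 𝓑`. Otherwise some `A ∉ 𝓑` violates the condition; pass to `𝓑 ∪ {A}`: the new accepted samples contain `A` and no `B ∈ 𝓑`, so
they are among the at most `#Ω/2^G` samples of the condition. In total at most `m` steps, and `m ≤ (q^2 + 1)^(2t)` (subsets with at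
most `2t` elements of a set with `q^2` elements). -/
def CLO_stmt : Prop :=
  ∀ (K : Type) [Field K] [Fintype K] [DecidableEq K] (p L G t : ℕ) (ε : K ≃ Fin p × Fin L)
    (𝓑 : Finset (Finset (K × K))), (∀ B ∈ 𝓑, PF B ∧ B.card ≤ 2 * t) →
    ∃ 𝓐 : Finset (Finset (K × K)), 𝓑 ⊆ 𝓐 ∧ Clsd G t ε 𝓐 ∧
      Nat.card {ω : Fin G → (K × Fin p → Fin L) // Acc 𝓐 (Ng ε ω) ∧ ¬ Acc 𝓑 (Ng ε ω)} * 2 ^ G ≤
        ((Fintype.card K) ^ 2 + 1) ^ (2 * t) * Fintype.card (Fin G → (K × Fin p → Fin L))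

/-- MCT (medium). From SPF, GRP. A closed family has at most `(4tL)^j` minimal elements of cardinality `j`. Otherwise SPF with
`k = 4tL` gives `Y`, `#Y < j`; let `𝓖 = {B \ Y : B` minimal, `#B = j`, `Y ⊆ B}` (`i = j - #Y`, `#𝓖` = the number of these `B`). For
`Z` nonempty disjoint from `Y` with `#Z ≤ i`: `#{Z ⊆ B \ Y} ≤ k^(i - #Z)` and `#𝓖 > k^i`; `Z = ∅` is clear; all other `Z` are in no
`B \ Y`. So GRP: at most `#Ω/2^G` samples have no `B` with `B ⊆ Y ∪ Ng ω`. `Y` is `PF`, `#Y ≤ 2t`, so `Y ∈ 𝓐`, and `Y ⊂ B`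
contradicts the minimality. -/
def MCT_stmt : Prop :=
  ∀ (K : Type) [Field K] [Fintype K] [DecidableEq K] (p L G t : ℕ) (ε : K ≃ Fin p × Fin L)
    (𝓐 : Finset (Finset (K × K))), 1 ≤ L → 1 ≤ t → Clsd G t ε 𝓐 →
    ∀ j, (𝓐.filter fun B => B.card = j ∧ ∀ B' ∈ 𝓐, B' ⊆ B → B' = B).card ≤ (4 * t * L) ^ j

/-- PCN (short-medium). A `PF` set with `m ≤ c + 1` points is contained in at most `q^(c+1-m)` graphs of polynomials of degree
`≤ c`: extend it to `c + 1` points in different columns in `q^(c+1-m)` ways (needs `c + 1 ≤ q`; choose the new columns); a polynomial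
of degree `≤ c` is determined by its values at `c + 1` points. -/
def PCN_stmt : Prop :=
  ∀ (K : Type) [Field K] [Fintype K] [DecidableEq K] (c : ℕ) (B : Finset (K × K)), PF B → B.card ≤ c + 1 →
    c + 1 ≤ Fintype.card K →
    (univ.filter fun a : Fin (c + 1) → K => ∀ z ∈ B, gr a z = true).card * (Fintype.card K) ^ B.card ≤
      (Fintype.card K) ^ (c + 1)

/-- A family of `PF` sets with at most `t` elements, at most `(4tL)^j` of them with `j` elements. -/
def Small {K : Type} [Field K] [DecidableEq K] (t L : ℕ) (𝓜 : Finset (Finset (K × K))) : Prop :=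
  (∀ B ∈ 𝓜, PF B ∧ B.card ≤ t) ∧ ∀ j, (𝓜.filter fun B => B.card = j).card ≤ (4 * t * L) ^ j

/-- STP (medium). From CLO, MCT, PCN. One gate. Let `𝓐 ⊇ 𝓑` be closed (CLO) and `𝓜` = the minimal elements of `𝓐` with at most
`t` elements: `Small` by MCT. Negative error: `Acc 𝓜` implies `Acc 𝓐`. Positive error: if `Acc 𝓑 (gr a)` and not `Acc 𝓜 (gr a)`
then the graph contains a minimal element of `𝓐` with `j` elements, `t < j ≤ 2t`; by MCT and PCN (`c = 2t`) the number of these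
`a` is at most `∑_{j = t+1}^{2t} (4tL)^j q^(c+1-j) = q^(c+1) ∑ 4^(-j) ≤ q^(c+1) 4^(-t) / 3` (`q = 16 t L`). -/
def STP_stmt : Prop :=
  ∀ (K : Type) [Field K] [Fintype K] [DecidableEq K] (L G t : ℕ) (ε : K ≃ Fin (16 * t) × Fin L)
    (𝓑 : Finset (Finset (K × K))), 1 ≤ L → 1 ≤ t → (∀ B ∈ 𝓑, PF B ∧ B.card ≤ 2 * t) →
    ∃ 𝓜 : Finset (Finset (K × K)), Small t L 𝓜 ∧
      Nat.card {ω : Fin G → (K × Fin (16 * t) → Fin L) // Acc 𝓜 (Ng ε ω) ∧ ¬ Acc 𝓑 (Ng ε ω)} * 2 ^ G ≤
        ((Fintype.card K) ^ 2 + 1) ^ (2 * t) * Fintype.card (Fin G → (K × Fin (16 * t) → Fin L)) ∧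
      Nat.card {a : Fin (2 * t + 1) → K // Acc 𝓑 (gr a) ∧ ¬ Acc 𝓜 (gr a)} * (3 * 4 ^ t) ≤
        (Fintype.card K) ^ (2 * t + 1)

/-- APX (medium). From STP. Induction on the program `l` over `mon` (functions of `N` variables, `ρ` numbers the grid): error
sets `E`, `E'` and for every available `u` a small family `𝓜` such that `u = 1` at a graph outside `E` implies `Acc 𝓜`, and
`Acc 𝓜` at a negative input outside `E'` implies `u = 1`. Variables: `𝓜 = {{z}}`; constants: `{∅}`, `∅`; OR: `𝓑` = the union of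
the two families, AND: `𝓑 = {B ∪ B' : B ∈ 𝓜, B' ∈ 𝓜', PF}` (a graph contains only `PF` sets), then STP. -/
def APX_stmt : Prop :=
  ∀ (K : Type) [Field K] [Fintype K] [DecidableEq K] (L G t N : ℕ) (ε : K ≃ Fin (16 * t) × Fin L)
    (ρ : K × K ≃ Fin N) (l : List (BF N)), 1 ≤ L → 1 ≤ t → Prog mon N l →
    ∃ (E : Finset (Fin (2 * t + 1) → K)) (E' : Finset (Fin G → (K × Fin (16 * t) → Fin L))),
      E.card * (3 * 4 ^ t) ≤ l.length * (Fintype.card K) ^ (2 * t + 1) ∧
      E'.card * 2 ^ G ≤ l.length * (((Fintype.card K) ^ 2 + 1) ^ (2 * t) *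
        Fintype.card (Fin G → (K × Fin (16 * t) → Fin L))) ∧
      ∀ u : BF N, Av l u → ∃ 𝓜 : Finset (Finset (K × K)), Small t L 𝓜 ∧
        (∀ a, a ∉ E → u (fun i => gr a (ρ.symm i)) = true → Acc 𝓜 (gr a)) ∧
        ∀ ω, ω ∉ E' → Acc 𝓜 (Ng ε ω) → u (fun i => Ng ε ω (ρ.symm i)) = true

/-- BLO (short-medium). From APX, PCN. Let `u` accept all graphs and reject at least half of the negative inputs, of size `s` over
`mon`, `s < 2^t`. If `∅ ∈ 𝓜` then `Acc 𝓜` always holds, so half of the samples are in `E'`: `2^G ≤ 2 s (q^2+1)^(2t)`,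
impossible as `q = 2^(8e)`, `t = 2^e`, `G = t^2`, `e ≥ 16` (`(q^2+1)^(2t) ≤ 2^((16e+1) 2t)`). Otherwise the number of graphs
accepted by `𝓜` is at most `∑_{j=1}^{t} (4tL)^j q^(2t+1-j) ≤ q^(2t+1)/3` (PCN), so `#E ≥ (2/3) q^(2t+1)` and
`s ≥ 2 * 4^t > 2^t`. -/
def BLO_stmt : Prop :=
  ∀ (K : Type) [Field K] [Fintype K] [DecidableEq K] (e N : ℕ)
    (ε : K ≃ Fin (16 * 2 ^ e) × Fin (2 ^ (7 * e - 4))) (ρ : K × K ≃ Fin N) (u : BF N) (s : ℕ),
    16 ≤ e → Fintype.card K = 2 ^ (8 * e) → Size mon u s →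
    (∀ a : Fin (2 * 2 ^ e + 1) → K, u (fun i => gr a (ρ.symm i)) = true) →
    Nat.card {ω : Fin (2 ^ (2 * e)) → (K × Fin (16 * 2 ^ e) → Fin (2 ^ (7 * e - 4))) //
        u (fun i => Ng ε ω (ρ.symm i)) = true} * 2 ≤
      Fintype.card (Fin (2 ^ (2 * e)) → (K × Fin (16 * 2 ^ e) → Fin (2 ^ (7 * e - 4)))) →
    2 ^ (2 ^ e) ≤ s

/-! ### Circuits for linear systems over `F_2` -/

/-- parity of the number of ones -/
def par {N : ℕ} (f : Fin N → Bool) : Bool := decide (Odd (univ.filter fun j => f j = true).card)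

/-- the system `A v = b` over `F_2` has a solution -/
def Solv {M N : ℕ} (A : Fin M → Fin N → Bool) (b : Fin M → Bool) : Prop :=
  ∃ v : Fin N → Bool, ∀ i, par (fun j => A i j && v j) = b i

/-- the first index with `r j = 1` -/
def piv {N : ℕ} (r : Fin N → Bool) (j : Fin N) : Bool := r j && decide (∀ j' < j, r j' = false)

/-- the entry of the row `a` in the pivot column of the row `r` -/
def pe {N : ℕ} (r a : Fin N → Bool) : Bool := decide (∃ j, piv r j = true ∧ a j = true)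

/-- GS1 (short-medium). One step of elimination. If the row `A 0` is 0 then `pe = 0` and the first equation says `b 0 = 0`.
Otherwise let `j` be the pivot; adding the first equation to the equations with `A i j = 1` does not change the solutions, the
new equations `i ≥ 1` do not contain `v j`, and any solution of them becomes a solution of the first one by the choice of `v j`. -/
def GS1_stmt : Prop :=
  ∀ (M N : ℕ) (A : Fin (M + 1) → Fin N → Bool) (b : Fin (M + 1) → Bool),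
    Solv A b ↔ ((∃ j, A 0 j = true) ∨ b 0 = false) ∧
      Solv (fun (i : Fin M) j => xor (A i.succ j) (pe (A 0) (A i.succ) && A 0 j))
        (fun i => xor (b i.succ) (pe (A 0) (A i.succ) && b 0))

open Classical in
/-- `Solv` as a Boolean function: the variable `(i, j)`, `j < N`, is `A i j`, the variable `(i, N)` is `b i`. -/
noncomputable def solvF (M N : ℕ) : BF (M * (N + 1)) := fun z =>
  decide (Solv (fun (i : Fin M) (j : Fin N) => z (finProdFinEquiv (i, j.castSucc)))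
    fun i => z (finProdFinEquiv (i, Fin.last N)))

/-- GS2 (medium). From GS1, SUB, APP, DNF. Circuits for `solvF`, induction on `M` (`M = 0`: constant 1). The `M (N+1)` new
entries, the prefix disjunctions of the row 0, the `pe`, are computed by at most `C (M+1) (N+1)` gates, then SUB with `solvF M N`
(`z` replaced by the new entries), and the conjunction with `(∃ j, A 0 j) ∨ not b 0`. -/
def GS2_stmt : Prop := ∃ C : ℕ, ∀ M N, Size std (solvF M N) (C * (M + 1) ^ 2 * (N + 1) ^ 2)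

/-- LAF (medium). A set of vectors over `F_2` closed under sums of three elements is empty or a translate of a linear subspace,
so it is the solution set of a linear system; `N + 1` equations suffice (the subspace is cut out by at most `N` equations, use
zero equations to fill up; for the empty set use `0 = 1`). -/
def LAF_stmt : Prop :=
  ∀ (N : ℕ) (W : Set (Fin N → Bool)), (∀ u ∈ W, ∀ v ∈ W, ∀ w ∈ W, (fun i => xor (u i) (xor (v i) (w i))) ∈ W) →
    ∃ (A : Fin (N + 1) → Fin N → Bool) (b : Fin (N + 1) → Bool),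
      ∀ v, v ∈ W ↔ ∀ i, par (fun j => A i j && v j) = b i

open Classical in
/-- GS3 (short-medium). From GS2, LAF, RST, SUB. `∃ v ∈ W, v ≤ x` says that the system `(A i j && x j) v = b` is solvable; its
entries are 0 or `x j`, `b` is constant: RST with `solvF (N+1) N`. -/
def GS3_stmt : Prop :=
  ∃ C : ℕ, ∀ (N : ℕ) (W : Set (Fin N → Bool)),
    (∀ u ∈ W, ∀ v ∈ W, ∀ w ∈ W, (fun i => xor (u i) (xor (v i) (w i))) ∈ W) →
    Size std (fun x : Fin N → Bool => decide (∃ v ∈ W, ∀ i, v i = true → x i = true)) (C * (N + 2) ^ 4)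

/-- GXR (short-medium). In characteristic 2 the sets with `Good` are closed under sums (symmetric differences) of three sets:
the columns are symmetric differences, cardinalities add modulo 2 and power sums add. -/
def GXR_stmt : Prop :=
  ∀ (K : Type) [Field K] [Fintype K] [DecidableEq K] [CharP K 2] (c J : ℕ) (U V W : Finset (K × K)),
    Good c J U → Good c J V → Good c J W → Good c J (symmDiff U (symmDiff V W))

/-- BAS (medium). From FPO, NEG, BLO, GS3, GXR. The base function: `K = GaloisField 2 (8e)` (`q = 2^(8e)`), equivalences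
`ε : K ≃ Fin (16 * 2^e) × Fin (2^(7e-4))`, `ρ : K × K ≃ Fin (2^(16e))`, and
`h z = [SP (2 * 2^e) (2^(3e+4)) (z ∘ ρ)]`. Monotone by definition; size over `std` by GS3 with `W` = the indicators of the `Good`
sets, `C (2^(16e) + 2)^4 ≤ 2^(C' e)`; lower bound: FPO, NEG, BLO. -/
def BAS_stmt : Prop :=
  ∃ C e₀ : ℕ, 1 ≤ e₀ ∧ ∀ e, e₀ ≤ e → ∃ h : BF (2 ^ (16 * e)), Mono h ∧ Size std h (2 ^ (C * e)) ∧
    ∀ s, Size mon h s → 2 ^ (2 ^ e) ≤ s

end Pool.Agent.PB
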