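import Pool.Agent.helper64.PB.SpecF

/-!
# pb:* rows, block L: languages

`InPPoly`, `InNPPoly`, `Slices`, `PolyG` are in `Defs`. A language with slices in `[G]` for which NP/Poly is asked is made
from an arbitrary language by adding two variables `a`, `b` (the last two).
-/

set_option autoImplicit false

namespace Pool.Agent.PB

/-- `(a and not b and f(x)) or (all variables are 1)` -/
def eA {n : ℕ} (f : BF n) : BF (n + 2) := fun z =>
  (z (Fin.natAdd n 0) && !(z (Fin.natAdd n 1)) && f fun i => z (Fin.castAdd 2 i)) || decide (∀ i, z i = true)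

/-- `(a or not b or f(x)) and (some variable is 1)` -/
def eO {n : ℕ} (f : BF n) : BF (n + 2) := fun z =>
  (z (Fin.natAdd n 0) || !(z (Fin.natAdd n 1)) || f fun i => z (Fin.castAdd 2 i)) && decide (∃ i, z i = true)

/-- `a` if `a = b`, `f(x)` if `a = 1`, `b = 0`, `not f(not x)` if `a = 0`, `b = 1` -/
def eS {n : ℕ} (f : BF n) : BF (n + 2) := fun z =>
  (z (Fin.natAdd n 0) && z (Fin.natAdd n 1)) ||
  (z (Fin.natAdd n 0) && !(z (Fin.natAdd n 1)) && f fun i => z (Fin.castAdd 2 i)) ||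
  (!(z (Fin.natAdd n 0)) && z (Fin.natAdd n 1) && !(f fun i => !(z (Fin.castAdd 2 i))))

/-- The language with the slices `Φ (A n)` in length `n + 2`. -/
def ext (Φ : ∀ n, BF n → BF (n + 2)) (A : Lang) : Lang
  | 0 => fun _ => false
  | 1 => fun z => z 0
  | n + 2 => Φ n (A n)

/-- POL (short). For `n ≥ 2` use `n + 2 ≤ n^2`, `C ≤ n^C`; for `n ≤ 1` the summand `d`. -/
def POL_stmt : Prop := ∀ C c : ℕ, ∃ d : ℕ, ∀ n : ℕ, C * ((n + 2) ^ c + n + c + 2) ≤ n ^ d + d

/-- REN (short). From SUB (and APP). Replace every variable of `u` by a variable, a negated variable or a constant: a program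
with the `n` negations and the two constants, then SUB. -/
def REN_stmt : Prop :=
  ∀ (m n : ℕ) (u : BF m) (s : ℕ) (φ : Fin m → BF n),
    (∀ i, (∃ j, φ i = fun x => x j) ∨ (∃ j, φ i = fun x => !(x j)) ∨ ∃ v, φ i = fC v n) →
    Size std u s → Size std (fun x => u fun i => φ i x) (s + n + 2)

/-- BIN (short-medium). From APP (and SUB). -/
def BIN_stmt : Prop :=
  (∀ (n : ℕ) (u v : BF n) (s t : ℕ), Size std u s → Size std v t →
    Size std (fun x => u x && v x) (s + t + 1) ∧ Size std (fun x => u x || v x) (s + t + 1) ∧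
      Size std (fun x => !(u x)) (s + 1)) ∧
  ∀ (m n : ℕ) (φ : Fin m → Fin n), Size std (fun x : Fin n → Bool => decide (∀ i, x (φ i) = true)) (m + 1) ∧
    Size std (fun x : Fin n → Bool => decide (∃ i, x (φ i) = true)) (m + 1)

/-- BCK (short-medium). From RST, STR, POL. `PolyG G (ext Φ A)` gives circuits over `std` for `Φ (A n)`, `n + 2` variables
(STR), and `A n` is the restriction to `a = 1`, `b = 0` for `eA` and `eS`, to `a = 0`, `b = 1` for `eO` (RST). -/
def BCK_stmt : Prop :=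
  ∀ (G : Set Gate) (A : Lang), G.Finite →
    (PolyG G (ext (fun _ f => eA f) A) → InPPoly A) ∧ (PolyG G (ext (fun _ f => eO f) A) → InPPoly A) ∧
    (PolyG G (ext (fun _ f => eS f) A) → InPPoly A)

/-- NPA (medium). From REN, BIN, POL. Length `n + 2`: let `F : BF (n + w)` be the nondeterministic circuit of `A n`;
`F'(x, a, b, y) = (a and not b and F(x, y)) or (x, a, b are all 1)`, of size `≤ n^c + c + O(n)` (REN for `F`). `eO` in the same
way. Length 0: the constant 0, `w = 0`; length 1: a variable, `w = 0`. -/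
def NPA_stmt : Prop :=
  ∀ A : Lang, InNPPoly A → InNPPoly (ext (fun _ f => eA f) A) ∧ InNPPoly (ext (fun _ f => eO f) A)

/-- NPS (medium). From REN, BIN, POL. The nondeterministic circuit
`(a and b) or (a and not b and F_1(x, y_1)) or (not a and b and F_2(not x, y_2))` with `F_1` for `A`, `F_2` for `compl A`. -/
def NPS_stmt : Prop :=
  ∀ A : Lang, InNPPoly A → InNPPoly (compl A) → InNPPoly (ext (fun _ f => eS f) A)

/-- NPC (short-medium). From REN, BIN, POL. `not A(x) = A(not x)`: `F'(x, y) = F(not x, y)`; `n = 0`: a constant. -/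
def NPC_stmt : Prop :=
  ∀ A : Lang, (∀ n, 1 ≤ n → SelfDual (A n)) → InNPPoly A → InNPPoly (compl A)

/-- PNP (short). `w = 0` (rename the variables: RST, or SUB). -/
def PNP_stmt : Prop := ∀ A : Lang, InPPoly A → InNPPoly A

/-- FWD (short). From ETH, POL. -/
def FWD_stmt : Prop :=
  ∀ (G : Set Gate) (A : Lang), ¬ Trivial G → ¬ Weak G → Slices G A → InPPoly A → PolyG G A

/-- CLA (medium). From CSE, RTP, EID, ET0, EAL, DNF, DUA, PRP. The cases of CSE. `eA f` has the properties `eA f ≤ a` or all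
ones, so `eA f ≤ a`; `eA f (1) = 1`, `eA f (0) = 0`. (1) `fM ∈ [G]`: RTP with `t = a` (sizes by DNF). (1') `fM ∈ [dualB G]`:
`dual (eO f) = eA (dual f)`, RTP for `dualB G` and DUA: `eO f ∈ [G]`. (2) self-dual: all gates of `G` are self-dual, excluded.
(3) EID for `eA f`; (4) ET0 for `eA f`; (4') ET0 for `dualB G` and `dual (eA f)` (at 0 it is `not (eA f (1)) = 0`); (5) EAL. The
slice of length 1 is a variable. -/
def CLA_stmt : Prop :=
  ∀ G : Set Gate, ¬ Trivial G → ¬ Weak G → (∃ g ∈ G, ¬ SelfDual g.2) →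
    (∀ A : Lang, Slices G (ext (fun _ f => eA f) A)) ∨ (∀ A : Lang, Slices G (ext (fun _ f => eO f) A))

/-- CLB (short-medium). From SDM, ESD, DNF. Not `Trivial`: there is a non-affine gate; not `Weak`: a non-monotone gate. So
`fD ∈ [G]`. `eS f` is self-dual and 0 at 0: ESD. -/
def CLB_stmt : Prop :=
  ∀ G : Set Gate, ¬ Trivial G → ¬ Weak G → (∀ g ∈ G, SelfDual g.2) → ∀ A : Lang, Slices G (ext (fun _ f => eS f) A)

/-- QEE (short). From FWD, CLA, BCK, NPA. -/
def QEE_stmt : Prop :=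
  ∀ G : Set Gate, G.Finite → ¬ Trivial G → ¬ Weak G → (∃ g ∈ G, ¬ SelfDual g.2) →
    ((∀ A : Lang, Slices G A → InNPPoly A → PolyG G A) ↔ ∀ A : Lang, InNPPoly A → InPPoly A)

/-- QSS (short-medium). From FWD, CLB, BCK, NPS, NPC, PRP. The slices (`n ≥ 1`) of a language with slices in `[G]` are
self-dual (PRP), so NPC applies. -/
def QSS_stmt : Prop :=
  ∀ G : Set Gate, G.Finite → ¬ Trivial G → ¬ Weak G → (∀ g ∈ G, SelfDual g.2) →
    ((∀ A : Lang, Slices G A → InNPPoly A → PolyG G A) ↔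
      ∀ A : Lang, InNPPoly A → InNPPoly (compl A) → InPPoly A)

/-- QNU (short-medium). With `E = 2^e`: `n^(1/17) ≤ (c 2^16)^(1/17) E^(16/17)`, which is at most `E - log_2 c - 2` for large `E`
(`n ≥ n₀` makes `E` large), and `s ≥ 2^E / c - 1 ≥ 2^(E - log_2 c - 1)`. -/
def QNU_stmt : Prop :=
  ∀ c : ℕ, 1 ≤ c → ∃ n₀ : ℕ, ∀ n, n₀ ≤ n → ∀ e s : ℕ, n < c * 2 ^ (16 * (e + 1)) → 2 ^ (2 ^ e) ≤ c * (s + 1) →
    (2 : ℝ) ^ ((n : ℝ) ^ (1 / 17 : ℝ)) ≤ s

/-- QWL (medium). From BAS, SUB, QNU, POL. Let `c` be the constant of `GapProp` (`c ≥ 1`), `C`, `e₀` those of BAS, `h_e` the base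
function, `f_e` (of `m_e` variables, `1 ≤ m_e ≤ c 2^(16e)`) the function for it. For `n ≥ c 2^(16 e₀)` let `e ≥ e₀` be maximal with
`c 2^(16e) ≤ n` and `A_n(z) = f_e(z_0, ..., z_(m_e - 1))`; for smaller `n ≥ 1` let `A_n(z) = z_0`. `A_n ∈ [G]` (SUB).
`L(A_n) ≤ c (2^(Ce) + 2^(16e)) ≤ c (n^C + n)` (`2^e ≤ n`). A `G`-circuit of `A_n` with `s` gates gives one for `f_e` (variables
beyond `m_e` replaced by the first variable; SUB), so `2^(2^e) ≤ c (s + 1)`, while `n < c 2^(16(e+1))`: QNU, `ε = 1/17`. -/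
def QWL_stmt : Prop :=
  ∀ G : Set Gate, GapProp G → ∃ A : Lang, InPPoly A ∧ Slices G A ∧
    ∃ ε : ℝ, 0 < ε ∧ ∃ n₀ : ℕ, ∀ n, n₀ ≤ n → ∀ s : ℕ, Size G (A n) s → (2 : ℝ) ^ ((n : ℝ) ^ ε) ≤ s

/-- GRO (short). `n^c + c < 2^(n^ε)` for large `n`. -/
def GRO_stmt : Prop :=
  ∀ (ε : ℝ) (c n₀ : ℕ), 0 < ε → ∃ n : ℕ, n₀ ≤ n ∧ 1 ≤ n ∧ ((n ^ c + c : ℕ) : ℝ) < (2 : ℝ) ^ ((n : ℝ) ^ ε)

end Pool.Agent.PB
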