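import Pool.Agent.helper97.PB.APP
import Pool.Agent.helper30.PB.SUB
import Pool.Agent.helper32.PB.CMP
import Pool.Agent.helper79.PB.CLP
import Pool.Agent.helper71.PB.TRB
import Pool.Agent.helper53.PB.PRP
import Pool.Agent.helper35.PB.DUA
import Pool.Agent.helper53.PB.DNF
import Pool.Agent.helper50.PB.MTR
import Pool.Agent.helper53.PB.STR
import Pool.Agent.helper75.PB.ALA
import Pool.Agent.helper11.PB.ALO
import Pool.Agent.helper48.PB.SIM
import Pool.Agent.helper79.PB.NMM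
import Pool.Agent.helper40.PB.NLM
import Pool.Agent.helper41.PB.NMI
import Pool.Agent.helper90.PB.TKI
import Pool.Agent.helper17.PB.MXK
import Pool.Agent.helper31.PB.MON
import Pool.Agent.helper75.PB.SDM
import Pool.Agent.helper14.PB.IDM
import Pool.Agent.helper99.PB.XNA
import Pool.Agent.helper45.PB.T0C
import Pool.Agent.helper2.PB.ALC
import Pool.Agent.helper99.PB.CSE
import Pool.Agent.helper31.PB.RTP
import Pool.Agent.helper78.PB.RT0
import Pool.Agent.helper27.PB.EST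
import Pool.Agent.helper49.PB.EID
import Pool.Agent.helper76.PB.ET0
import Pool.Agent.helper77.PB.EAL
import Pool.Agent.helper9.PB.SEL
import Pool.Agent.helper74.PB.ESD
import Pool.Agent.helper13.PB.ESE
import Pool.Agent.helper97.PB.ETH
import Pool.Agent.helper85.PB.TAF
import Pool.Agent.helper89.PB.TCO
import Pool.Agent.helper78.PB.TTH
import Pool.Agent.helper32.PB.UPC
import Pool.Agent.helper67.PB.BKP
import Pool.Agent.helper79.PB.S12
import Pool.Agent.helper39.PB.HIN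
import Pool.Agent.helper44.PB.HLO
import Pool.Agent.helper34.PB.HUP
import Pool.Agent.helper13.PB.RST
import Pool.Agent.helper27.PB.WIN
import Pool.Agent.helper25.PB.GDU
import Pool.Agent.helper83.PB.WAO
import Pool.Agent.helper8.PB.SDG
import Pool.Agent.helper82.PB.WMJ
import Pool.Agent.helper10.PB.WTH
import Pool.Agent.helper79.PB.FPO
import Pool.Agent.helper83.PB.HNK
import Pool.Agent.helper99.PB.DEG
import Pool.Agent.helper76.PB.CRV
import Pool.Agent.helper39.PB.PRB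
import Pool.Agent.helper50.PB.NGC
import Pool.Agent.helper82.PB.NUB
import Pool.Agent.helper34.PB.NEG
import Pool.Agent.helper74.PB.SPF
import Pool.Agent.helper40.PB.SM2
import Pool.Agent.helper45.PB.GRP
import Pool.Agent.helper11.PB.CLO
import Pool.Agent.helper75.PB.MCT
import Pool.Agent.helper68.PB.PCN
import Pool.Agent.helper31.PB.STP
import Pool.Agent.helper97.PB.APX
import Pool.Agent.helper77.PB.BLO
import Pool.Agent.helper99.PB.GS1
import Pool.Agent.helper49.PB.GS2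
import Pool.Agent.helper25.PB.LAF
import Pool.Agent.helper32.PB.GS3
import Pool.Agent.helper78.PB.GXR
import Pool.Agent.helper10.PB.BAS
import Pool.Agent.helper71.PB.POL
import Pool.Agent.helper35.PB.REN
import Pool.Agent.helper88.PB.BIN
import Pool.Agent.helper74.PB.BCK
import Pool.Agent.helper10.PB.NPA
import Pool.Agent.helper52.PB.NPS
import Pool.Agent.helper82.PB.NPC
import Pool.Agent.helper90.PB.PNP
import Pool.Agent.helper32.PB.FWD
import Pool.Agent.helper11.PB.CLA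
import Pool.Agent.helper54.PB.CLB
import Pool.Agent.helper45.PB.QEE
import Pool.Agent.helper78.PB.QSS
import Pool.Agent.helper68.PB.QNU
import Pool.Agent.helper8.PB.QWL
import Pool.Agent.helper25.PB.GRO
import Pool.Agent.helper64.PB.SpecL

/-!
# Assembly of the rows pb:* (MP_069684_lc): the question P/Poly = NP/Poly over every finite basis
-/

set_option autoImplicit false

namespace Pool.Agent.PB

theorem pAPP : APP_stmt := APP

theorem pSUB : SUB_stmt := SUB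

theorem pCMP : CMP_stmt := CMP pAPP pSUB

theorem pCLP : CLP_stmt := CLP pCMP

theorem pTRB : TRB_stmt := TRB pSUB

theorem pPRP : PRP_stmt := PRP

theorem pDUA : DUA_stmt := DUA

theorem pDNF : DNF_stmt := DNF pCLP

theorem pMTR : MTR_stmt := MTR pTRB pDNF

theorem pSTR : STR_stmt := STR pTRB pDNF

theorem pALA : ALA_stmt := ALA pSUB

theorem pALO : ALO_stmt := ALO pALA pDUA

theorem pSIM : SIM_stmt := SIM pSUB

theorem pNMM : NMM_stmt := NMM

theorem pNLM : NLM_stmt := NLM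

theorem pNMI : NMI_stmt := NMI pNMM pCLP pPRP

theorem pTKI : TKI_stmt := TKI pCLP pPRP

theorem pMXK : MXK_stmt := MXK

theorem pMON : MON_stmt := MON pCLP

theorem pSDM : SDM_stmt := SDM pNMM pNLM pCLP pPRP

theorem pIDM : IDM_stmt := IDM pCLP pPRP pDUA

theorem pXNA : XNA_stmt := XNA pNLM pCLP pPRP

theorem pT0C : T0C_stmt := T0C pNMM pXNA pCLP pPRP

theorem pALC : ALC_stmt := ALC pNLM pCLP

theorem pCSE : CSE_stmt := CSE pNMI pSDM pIDM pT0C pALC pNMM pCLP pPRP pDUA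

theorem pRTP : RTP_stmt := RTP pSIM pALA pSUB pAPP pCLP

theorem pRT0 : RT0_stmt := RT0 pSIM pCLP pSUB pAPP

theorem pEST : EST_stmt := EST pRTP pRT0 pPRP pCLP

theorem pEID : EID_stmt := EID pSIM pALA pALO pAPP

theorem pET0 : ET0_stmt := ET0 pSIM pALO pAPP pCLP

theorem pEAL : EAL_stmt := EAL pSIM pCLP pTRB

theorem pSEL : SEL_stmt := SEL pSUB pAPP

theorem pESD : ESD_stmt := ESD pSIM pSEL pAPP pCLP

theorem pESE : ESE_stmt := ESE pESD pPRP pCLP pCMP

theorem pETH : ETH_stmt := ETH pCSE pEST pEID pET0 pEAL pESE pDUA pPRP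

theorem pTAF : TAF_stmt := TAF pPRP pCLP pSUB pCMP

theorem pTCO : TCO_stmt := TCO pPRP pCLP pSUB pCMP

theorem pTTH : TTH_stmt := TTH pTAF pTCO pDUA

theorem pUPC : UPC_stmt := UPC pMTR

theorem pBKP : BKP_stmt := BKP pCLP

theorem pS12 : S12_stmt := S12 pBKP pRTP pDNF

theorem pHIN : HIN_stmt := HIN

theorem pHLO : HLO_stmt := HLO

theorem pHUP : HUP_stmt := HUP pCMP pDNF pALA pSUB

theorem pRST : RST_stmt := RST pSUB

theorem pWIN : WIN_stmt := WIN pUPC pS12 pHIN pHLO pHUP pRST pMXK pNMI pTKI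

theorem pGDU : GDU_stmt := GDU pDUA

theorem pWAO : WAO_stmt := WAO pCLP pMTR pCMP pRST

theorem pSDG : SDG_stmt := SDG pCLP

theorem pWMJ : WMJ_stmt := WMJ pSDG pMTR pCMP pRST pDNF

theorem pWTH : WTH_stmt := WTH pMON pWAO pWMJ pWIN pGDU pDUA

theorem pFPO : FPO_stmt := FPO

theorem pHNK : HNK_stmt := HNK

theorem pDEG : DEG_stmt := DEG

theorem pCRV : CRV_stmt := CRV pHNK pDEG

theorem pPRB : PRB_stmt := PRB

theorem pNGC : NGC_stmt := NGC

theorem pNUB : NUB_stmt := NUB pCRV pPRB pNGC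

theorem pNEG : NEG_stmt := NEG pNUB

theorem pSPF : SPF_stmt := SPF

theorem pSM2 : SM2_stmt := SM2

theorem pGRP : GRP_stmt := GRP pSM2

theorem pCLO : CLO_stmt := CLO

theorem pMCT : MCT_stmt := MCT pSPF pGRP

theorem pPCN : PCN_stmt := PCN

theorem pSTP : STP_stmt := STP pCLO pMCT pPCN

theorem pAPX : APX_stmt := APX pSTP

theorem pBLO : BLO_stmt := BLO pAPX pPCN

theorem pGS1 : GS1_stmt := GS1

theorem pGS2 : GS2_stmt := GS2 pGS1 pSUB pAPP pDNF

theorem pLAF : LAF_stmt := LAF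

theorem pGS3 : GS3_stmt := GS3 pGS2 pLAF pRST pSUB

theorem pGXR : GXR_stmt := GXR

theorem pBAS : BAS_stmt := BAS pFPO pNEG pBLO pGS3 pGXR

theorem pPOL : POL_stmt := POL

theorem pREN : REN_stmt := REN pSUB pAPP

theorem pBIN : BIN_stmt := BIN pSUB pAPP

theorem pBCK : BCK_stmt := BCK pRST pSTR pPOL

theorem pNPA : NPA_stmt := NPA pREN pBIN pPOL

theorem pNPS : NPS_stmt := NPS pREN pBIN pPOL

theorem pNPC : NPC_stmt := NPC pREN pBIN pPOL

theorem pPNP : PNP_stmt := PNP pRST pSUB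

theorem pFWD : FWD_stmt := FWD pETH pPOL

theorem pCLA : CLA_stmt := CLA pCSE pRTP pEID pET0 pEAL pDNF pDUA pPRP

theorem pCLB : CLB_stmt := CLB pSDM pESD pDNF

theorem pQEE : QEE_stmt := QEE pFWD pCLA pBCK pNPA

theorem pQSS : QSS_stmt := QSS pFWD pCLB pBCK pNPS pNPC pPRP

theorem pQNU : QNU_stmt := QNU

theorem pQWL : QWL_stmt := QWL pBAS pSUB pQNU pPOL

theorem pGRO : GRO_stmt := GRO

theorem main_of (hTTH : TTH_stmt) (hWTH : WTH_stmt) (hETH : ETH_stmt) (hQWL : QWL_stmt) (hPNP : PNP_stmt)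
    (hGRO : GRO_stmt) (hQEE : QEE_stmt) (hQSS : QSS_stmt) (G : Set Gate) (hG : G.Finite) :
    (Trivial G → ∃ c : ℕ, ∀ n, 1 ≤ n → ∀ f : BF n, (∃ s, Size G f s) → Size G f (c * n)) ∧
    (Weak G →
      (∃ c : ℕ, ∀ (n : ℕ) (h : BF n), 1 ≤ n → Mono h → ∃ m, 1 ≤ m ∧ m ≤ c * n ∧ ∃ f : BF m,
        (∃ s, Size G f s) ∧ (∀ s, Size std h s → Size std f (c * (s + n))) ∧
        ∀ s, Size G f s → Size mon h (c * (s + 1))) ∧
      (∃ A : Lang, InPPoly A ∧ Slices G A ∧ ∃ ε : ℝ, 0 < ε ∧ ∃ n₀ : ℕ, ∀ n, n₀ ≤ n →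
        ∀ s : ℕ, Size G (A n) s → (2 : ℝ) ^ ((n : ℝ) ^ ε) ≤ s) ∧
      ¬ ∀ A : Lang, Slices G A → InNPPoly A → PolyG G A) ∧
    (¬ Trivial G → ¬ Weak G →
      (∃ c : ℕ, ∀ n, 1 ≤ n → ∀ f : BF n, (∃ s, Size G f s) → ∀ s, Size std f s → Size G f (c * (s + n))) ∧
      ((∃ g ∈ G, ¬ SelfDual g.2) →
        ((∀ A : Lang, Slices G A → InNPPoly A → PolyG G A) ↔ ∀ A : Lang, InNPPoly A → InPPoly A)) ∧
      ((∀ g ∈ G, SelfDual g.2) →
        ((∀ A : Lang, Slices G A → InNPPoly A → PolyG G A) ↔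
          ∀ A : Lang, InNPPoly A → InNPPoly (compl A) → InPPoly A)))
    := by
  refine ⟨hTTH G, fun hW => ⟨hWTH G hG hW, ?_⟩, fun hT hW => ⟨hETH G hT hW, hQEE G hG hT hW, hQSS G hG hT hW⟩⟩
  obtain ⟨A, h1, h2, ε, h3, n₀, h4⟩ := hQWL G (hWTH G hG hW)
  refine ⟨⟨A, h1, h2, ε, h3, n₀, h4⟩, fun hQ => ?_⟩
  obtain ⟨c, hc⟩ := hQ A h2 (hPNP A h1)
  obtain ⟨n, hn, hn1, hlt⟩ := hGRO ε c n₀ h3
  exact absurd (h4 n hn _ (hc n hn1)) (not_le.mpr hlt)
end Pool.Agent.PB
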