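import Mathlib

/-!
# P/Poly versus NP/Poly over an arbitrary basis (MP_069684_lc): definitions
-/

set_option autoImplicit false

namespace Pool.Agent.PB

/-! ## Circuits over a basis -/

/-- Boolean functions of `n` variables. -/
abbrev BF (n : ℕ) : Type := (Fin n → Bool) → Bool

/-- A gate: a Boolean function together with its number of inputs. A basis is a set of gates. -/
abbrev Gate : Type := Σ r : ℕ, BF r

/-- `Prog G n l`: the functions in the list `l` (of `n` variables, the last computed function first) are computed one
after the other: each is a gate of `G` applied to variables and to functions computed earlier. Thus `l` is a circuit over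
the basis `G`, and the length of `l` is its number of gates. -/
inductive Prog (G : Set Gate) (n : ℕ) : List (BF n) → Prop
  | nil : Prog G n []
  | step (l : List (BF n)) (g : Gate) (a : Fin g.1 → BF n) : Prog G n l → g ∈ G →
      (∀ i, a i ∈ l ∨ ∃ j, a i = fun x => x j) → Prog G n ((fun x => g.2 fun i => a i x) :: l)

/-- The function `f` is computed by a circuit over `G` with at most `s` gates. -/
def Size (G : Set Gate) {n : ℕ} (f : BF n) (s : ℕ) : Prop :=
  ∃ l, Prog G n l ∧ l.length ≤ s ∧ (f ∈ l ∨ ∃ j, f = fun x => x j)

/-- The constants as gates without inputs. -/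
def gConst (b : Bool) : Gate := ⟨0, fun _ => b⟩

/-- NOT -/
def gNot : Gate := ⟨1, fun x => !(x 0)⟩

/-- AND -/
def gAnd : Gate := ⟨2, fun x => x 0 && x 1⟩

/-- OR -/
def gOr : Gate := ⟨2, fun x => x 0 || x 1⟩

/-- The standard basis: AND, OR, NOT and the constants. -/
def std : Set Gate := {gConst false, gConst true, gNot, gAnd, gOr}

/-- The monotone basis: AND, OR and the constants. -/
def mon : Set Gate := {gConst false, gConst true, gAnd, gOr}

/-! ## Properties of Boolean functions -/

/-- The function is a sum modulo 2 of variables and possibly the constant 1. -/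
def Affine {n : ℕ} (f : BF n) : Prop :=
  ∀ x y z, f (fun i => xor (x i) (xor (y i) (z i))) = xor (f x) (xor (f y) (f z))

/-- The function is a conjunction of variables or constant. -/
def Conj {n : ℕ} (f : BF n) : Prop := ∀ x y, f (fun i => x i && y i) = (f x && f y)

/-- The function is a disjunction of variables or constant. -/
def Disj {n : ℕ} (f : BF n) : Prop := ∀ x y, f (fun i => x i || y i) = (f x || f y)

/-- The function is monotone. -/
def Mono {n : ℕ} (f : BF n) : Prop := ∀ x y, (∀ i, x i = true → y i = true) → f x = true → f y = true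

/-- The function is self-dual. -/
def SelfDual {n : ℕ} (f : BF n) : Prop := ∀ x, f (fun i => !(x i)) = !(f x)

/-- Any `k` ones of `f` have a common coordinate 1. -/
def Inter (k : ℕ) {n : ℕ} (f : BF n) : Prop :=
  ∀ a : Fin k → Fin n → Bool, (∀ j, f (a j) = true) → ∃ i, ∀ j, a j i = true

/-- All ones of `f` have a common coordinate 1 (or `f` has no ones). -/
def Star {n : ℕ} (f : BF n) : Prop := (∀ x, f x = false) ∨ ∃ i, ∀ x, f x = true → x i = true

/-- The dual function. -/
def dual {n : ℕ} (f : BF n) : BF n := fun x => !(f fun i => !(x i))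

/-- The basis of the dual gates. -/
def dualB (G : Set Gate) : Set Gate := {g | (⟨g.1, dual g.2⟩ : Gate) ∈ G}

/-- Case (T): all gates are affine, or all are conjunctions or constants, or all are disjunctions or constants. -/
def Trivial (G : Set Gate) : Prop :=
  (∀ g ∈ G, Affine g.2) ∨ (∀ g ∈ G, Conj g.2) ∨ (∀ g ∈ G, Disj g.2)

/-- For some `k ≥ 2` any `k` ones of every gate have a common coordinate 1, but not all ones of every gate. -/
def Gap (G : Set Gate) : Prop := ∃ k, 2 ≤ k ∧ (∀ g ∈ G, Inter k g.2) ∧ ¬ ∀ g ∈ G, Star g.2

/-- Case (W). -/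
def Weak (G : Set Gate) : Prop := ¬ Trivial G ∧ ((∀ g ∈ G, Mono g.2) ∨ Gap G ∨ Gap (dualB G))

/-! ## Languages -/

/-- A language over `{0,1}`, given by its slices. -/
abbrev Lang : Type := (n : ℕ) → BF n

/-- `A ∈ P/Poly`: circuits of polynomial size over the standard basis. -/
def InPPoly (A : Lang) : Prop := ∃ c : ℕ, ∀ n, Size std (A n) (n ^ c + c)

/-- `A ∈ NP/Poly`: nondeterministic circuits of polynomial size: `x` of length `n` lies in `A` if and only if the
circuit accepts `(x, y)` for some `y` of length `w`. -/
def InNPPoly (A : Lang) : Prop :=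
  ∃ c : ℕ, ∀ n, ∃ w, w ≤ n ^ c + c ∧ ∃ f : BF (n + w), Size std f (n ^ c + c) ∧
    ∀ x : Fin n → Bool, A n x = true ↔ ∃ y : Fin w → Bool, f (Fin.append x y) = true

/-- The complement of a language. -/
def compl (A : Lang) : Lang := fun n x => !(A n x)

/-- All slices `A_n`, `n ≥ 1`, can be computed by circuits over `G` of some size. -/
def Slices (G : Set Gate) (A : Lang) : Prop := ∀ n, 1 ≤ n → ∃ s, Size G (A n) s

/-- `A` has circuits of polynomial size over `G` (`n ≥ 1`). -/
def PolyG (G : Set Gate) (A : Lang) : Prop := ∃ c : ℕ, ∀ n, 1 ≤ n → Size G (A n) (n ^ c + c)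

end Pool.Agent.PB
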