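import Pool.Agent.helper64.PB.SpecA

/-!
# pb:* rows, block B: Post type lemmas

`F ∈ [G]` is `InCl G F`; `[G]` is closed under composition (`CLP_stmt`), in particular under substituting variables or
other functions of `[G]` for the variables. We write `g(1,0,z)` etc. for values.
-/

set_option autoImplicit false

namespace Pool.Agent.PB

/-- NMM (short). A non-monotone function has the ternary minor `g` with `g(1,0,0) = 1`, `g(1,0,1) = 0`: let `x ≤ y`,
`f x = 1`, `f y = 0`; substitute variable 0 where `x_i = 1` (then `y_i = 1`), variable 1 where `x_i = y_i = 0`, variable 2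
where `x_i = 0`, `y_i = 1`. -/
def NMM_stmt : Prop :=
  ∀ (n : ℕ) (f : BF n), ¬ Mono f → ∃ σ : Fin n → Fin 3,
    f (fun i => (![true, false, false] : Fin 3 → Bool) (σ i)) = true ∧
    f (fun i => (![true, false, true] : Fin 3 → Bool) (σ i)) = false

/-- NLM (short-medium). A non-affine function has a non-affine ternary minor. (a) If all second differences
`f(x) + f(x+e_i) + f(x+e_j) + f(x+e_i+e_j)` (`i ≠ j`, `x_i = x_j = 0`) vanish then `f` is affine; so there are `x`, `i`, `j`
with second difference 1. Substitute variable 0 for `x_i`, 1 for `x_j`, 2 for the coordinates with value 0, 3 for those with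
value 1: a non-affine `F : BF 4`. (b) If the minors of `F` obtained by identifying variables 0,2 / 0,3 / 2,3 / 1,2 / ... are
all affine, i.e. `F` is affine on all `H_ab = {x_a = x_b}`, then `F` is affine: all second differences in directions 0, 1
vanish, at `(·,·,a,a)` by `H_23`; at `(·,·,0,1)`:
`F(0,0,0,1)+F(0,1,0,1) = F(0,0,0,0)+F(0,1,0,0)` (on `H_02`), `F(1,0,0,1)+F(1,1,0,1) = F(1,0,1,1)+F(1,1,1,1)` (on `H_03`), and
the four points `0000, 0100, 1011, 1111` lie in `H_23` and have sum 0. (By symmetry all directions; only 0, 1 are needed to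
contradict (a).) So some identification minor, a function of 3 variables, is non-affine. -/
def NLM_stmt : Prop :=
  ∀ (n : ℕ) (f : BF n), ¬ Affine f → ∃ σ : Fin n → Fin 3, ¬ Affine fun y : Fin 3 → Bool => f fun i => y (σ i)

/-- NMI (short-medium). From NMM, CLP, PRP. Let `g` be the minor of NMM of a non-monotone gate. `Inter 2` (for `[G]`, PRP)
and `g(1,0,0) = 1` give `g(0,y,z) = 0`. Let `α = g(1,1,0)`, `β = g(1,1,1)`.
`β = 1, α = 1`: `g = fM`. `β = 1, α = 0`: `g(x,y,z) = x and (y = z)`, `fM(x,y,z) = g(x, g(y,z,y)..)`: more precisely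
`fAnd(x,y) = g(x,y,x)` and `fM(x,y,z) = g(x, z and y, z)`. `β = 0`: the constant 0 is `g(x,x,x)`; `α = 1`:
`x and not z = g(x,y,z)`; `α = 0`: `x and not z = g(x,0,z)`; then `x and y = x and not (x and not y)`,
`fM(x,y,z) = x and not (z and not y)`. In the case `g = fM`: `fAnd(x,y) = fM(x,y,x)`. -/
def NMI_stmt : Prop :=
  ∀ G : Set Gate, (∀ g ∈ G, Inter 2 g.2) → (∃ g ∈ G, ¬ Mono g.2) → InCl G fAnd ∧ InCl G fM

/-- TKI (medium). From CLP, PRP. Let `f` be a gate with `k + 1` ones `a_0, ..., a_k` without a common coordinate 1.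
Substitute for the `i`-th variable of `f` the conjunction of the variables `y_j` over all `j` with `a_j i = false` (there is
such a `j`; conjunctions of at least one variable are in `[G]` by `fAnd`): this gives `g ∈ [G]`, a function of `k + 1`
variables, with `g(1 - e_j) = f(a_j) = 1` for all `j`. `Inter k`: `g(y) = 0` if `y` has two zeros `i ≠ j`: otherwise `y` and
the `k - 1` points `1 - e_m`, `m ≠ i, j`, would be `k` ones of `g` without a common coordinate (`y_i = y_j = 0`, and for
`m ≠ i, j` the point `1 - e_m` is 0 at `m`). If `g(1..1) = 1` then `g = fT k`. If `g(1..1) = 0`: the constant 0 is `g(y,..,y)`,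
`u and not v = fM(u, 0, v)`, and `fT k (y) = g(y_0, ..., y_(k-1), y_k and not (y_0 and ... and y_(k-1)))`: at `1..1` this is
`g(1,..,1,0) = 1`, at `1 - e_j` the arguments are `1 - e_j`, and if `y` has two zeros the arguments have two zeros at the same
places. (`fC false 1 ∈ [G]` in this case.) -/
def TKI_stmt : Prop :=
  ∀ (G : Set Gate) (k : ℕ), 2 ≤ k → (∀ g ∈ G, Inter k g.2) → (∃ g ∈ G, ¬ Inter (k + 1) g.2) →
    InCl G fAnd → InCl G fM → InCl G (fT k)

/-- MXK (short). `Inter (k+1)` implies `Inter k` for `k ≥ 1` (repeat a point), and `Inter (2 ^ r)` implies `Star` for a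
function of `r` variables (enumerate all ones; if there are none `Star` holds). So if `Gap G` there is a largest `k ≥ 2` such
that all gates have `Inter k`. -/
def MXK_stmt : Prop :=
  ∀ G : Set Gate, Gap G → ∃ k, 2 ≤ k ∧ (∀ g ∈ G, Inter k g.2) ∧ ∃ g ∈ G, ¬ Inter (k + 1) g.2

/-- MON (medium). From CLP. Let `f` be a monotone gate which is not `Disj`: it has a minimal one `S` (as a set) with
`#S ≥ 2` (otherwise `f` is a constant or the disjunction of its singleton ones). Substitute `x` for one element of `S`, `y`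
for the others, `z` outside `S`: `F(1,1,0) = 1`, `F(1,0,0) = F(0,1,0) = F(0,0,0) = 0`, `F(1,1,1) = 1`. With `p = F(0,0,1)`,
`q = F(1,0,1)`, `r = F(0,1,1)`, `p ≤ q, r`: `000`: conjunction; `q` only: `x and (y or z)`; `r` only: `y and (x or z)`;
`q, r`: `fMaj`; `p, q, r`: `z or (x and y)`. Dually a monotone gate which is not `Conj` gives disjunction, `x or (y and z)`,
`fMaj` or `x and (y or z)`. If only conjunction and disjunction arise then `x and (y or z) ∈ [G]`. -/
def MON_stmt : Prop :=
  ∀ G : Set Gate, (∀ g ∈ G, Mono g.2) → (¬ ∀ g ∈ G, Conj g.2) → (¬ ∀ g ∈ G, Disj g.2) →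
    InCl G fAO ∨ InCl G fOA ∨ InCl G fMaj

/-- SDM (medium). From NMM, NLM, CLP, PRP. All of `[G]` is self-dual. (1) `fMaj ∈ [G]`: NLM gives a non-affine self-dual
`F : BF 3` in `[G]`. Self-dual `F` is determined by `F(1,y,z)`, a function with an odd number of ones (otherwise it is affine
and then so is `F`), so `F = maj(x^a, y^b, z^c)` with some of the variables negated (finite check over the 16 self-dual
functions of 3 variables). No negation: done. One: `d = maj(x,y,not z)`, `maj(x,y,z) = d(x,y,d(x,y,z))`. Two: `maj(x, not y,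
not z)` with `y := x` is `not z`, three: `F(x,x,x) = not x`; so `fNot ∈ [G]` and `fMaj ∈ [G]`. (2) the minor `g` of NMM of a
non-monotone gate: `g(1,0,z) = not z`, by self-duality `g(0,1,z) = not z`; so `fD(x,y,z) = maj(x,y,g(x,y,z))`: for `x ≠ y` both
are `not z`, for `x = y` both are `x`. -/
def SDM_stmt : Prop :=
  ∀ G : Set Gate, (∀ g ∈ G, SelfDual g.2) → (∃ g ∈ G, ¬ Affine g.2) → (∃ g ∈ G, ¬ Mono g.2) → InCl G fD

/-- IDM (medium). From CLP, PRP, DUA. All of `[G]` is idempotent (`f(0..0) = 0`, `f(1..1) = 1`). A gate which is not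
self-dual has `f(a) = f(not a) = c` for some `a`; substitute `x` where `a_i = 1`, `y` where `a_i = 0`: `g(1,0) = g(0,1) = c`,
so `g` is `fAnd` (`c = 0`) or `fOr` (`c = 1`). If `fAnd ∈ [G]`: a gate without `Inter 2` has two ones `a, b` without a common
coordinate 1; substitute `x` where `a_i = 1`, `y` where `b_i = 1`, `x and y` elsewhere: the result is 1 at (1,0), (0,1), (1,1)
and 0 at (0,0): `fOr`. If `fOr ∈ [G]` use the same argument for `dualB G`. -/
def IDM_stmt : Prop :=
  ∀ G : Set Gate, (∀ g ∈ G, g.2 (fun _ => false) = false ∧ g.2 (fun _ => true) = true) →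
    (∃ g ∈ G, ¬ SelfDual g.2) → (∃ g ∈ G, ¬ Inter 2 g.2) → (∃ g ∈ dualB G, ¬ Inter 2 g.2) →
    InCl G fAnd ∧ InCl G fOr

/-- XNA (short-medium). From NLM, CLP. The constant 0 is `x + x`. NLM gives a non-affine `F : BF 3` in `[G]`; if
`F(0,0,0) = 1` see below; adding linear terms (`fXor`) we may take `F = a xy + b xz + c yz + d xyz` with `(a,b,c,d) ≠ 0`. If
`a = 1` put `z = 0`: `xy`; `b = 1`: `y = 0`; `c = 1`: `x = 0`; if `a = b = c = 0` then `F = xyz` and `F(x,y,y) = xy`. (The
hypothesis `g(0..0) = 0` for all gates gives `F(0,0,0) = 0`, PRP. One may also check the functions `F : BF 3` by `decide`.) -/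
def XNA_stmt : Prop :=
  ∀ G : Set Gate, (∀ g ∈ G, g.2 (fun _ => false) = false) → InCl G fXor → (∃ g ∈ G, ¬ Affine g.2) → InCl G fAnd

/-- T0C (medium). From NMM, XNA, CLP, PRP. The gates preserve 0 and the constant 0 is in `[G]`. A gate without `Inter 2`
has ones `a, b` without a common coordinate (`a, b ≠ 0`, `a ≠ b`); substitute `x`, `y`, `0`: `o(x,y)` with
`o(1,0) = o(0,1) = 1`, `o(0,0) = 0`: `fOr` or `fXor`. If `fOr`: `q(x,z) = g(x,0,z)` for `g` of NMM. If `fXor`: `fAnd ∈ [G]` by
XNA, `x or y = x + y + xy`, `q = x + z`. -/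
def T0C_stmt : Prop :=
  ∀ G : Set Gate, (∀ g ∈ G, g.2 (fun _ => false) = false) → InCl G (fC false 1) → (∃ g ∈ G, ¬ Inter 2 g.2) →
    (∃ g ∈ G, ¬ Mono g.2) → (∃ g ∈ G, ¬ Affine g.2) →
    InCl G fOr ∧ ∃ q : BF 2, InCl G q ∧ q ![false, false] = false ∧ q ![true, false] = true ∧ q ![true, true] = false

/-- ALC (short-medium). From NLM, CLP. With `fNot` and the constant 0 both constants are in `[G]`. A non-affine `F : BF 3` in
`[G]` (NLM) becomes non-affine of two variables by putting one variable constant: otherwise all coefficients of `xy`, `xz`,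
`yz` vanish in `F` and the coefficient of `xyz` is 1, but then `z = 1` works. A non-affine function of two variables is
`(x + β)(y + α) + γ`; negate inputs and output: `fAnd`. -/
def ALC_stmt : Prop :=
  ∀ G : Set Gate, InCl G fNot → InCl G (fC false 1) → (∃ g ∈ G, ¬ Affine g.2) → InCl G fAnd

/-- CSE (medium). From NMI, SDM, IDM, T0C, ALC, NMM, CLP, PRP, DUA. The classification of case (E). Not `Trivial`: there is a
non-affine gate. Not `Weak`: there is a non-monotone gate, `Inter 2` for all gates implies `Star` for all gates, and the same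
for `dualB G`.
(A) All gates `Inter 2`: all `Star`, `fM ∈ [G]` by NMI. (A') the same for `dualB G` (its gates are not all monotone).
(B) Otherwise neither. If all gates are self-dual: SDM. If not, and all gates are idempotent: IDM, and the minor `g` of NMM of
a non-monotone gate. If some gate is not idempotent, the function `f(x,..,x)`, in one variable, is a constant or `not x`.
If `fNot ∈ [G]`: a gate with `f(a) = f(not a)`, `x` substituted where `a_i = 1` and `not x` elsewhere, gives a constant, so both
constants; `fAnd` by ALC. If `fNot ∉ [G]`, not both constants are in `[G]` (otherwise `g(1,0,z) = not z`). If 0 is: all gates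
preserve 0 (otherwise substituting 0 gives the constant 1), T0C. If 1 is: T0C for `dualB G`. -/
def CSE_stmt : Prop :=
  ∀ G : Set Gate, ¬ Trivial G → ¬ Weak G →
    ((∀ g ∈ G, Star g.2) ∧ InCl G fM) ∨
    ((∀ g ∈ dualB G, Star g.2) ∧ InCl (dualB G) fM) ∨
    ((∀ g ∈ G, SelfDual g.2) ∧ InCl G fD) ∨
    ((∀ g ∈ G, g.2 (fun _ => false) = false ∧ g.2 (fun _ => true) = true) ∧ InCl G fAnd ∧ InCl G fOr ∧
      ∃ g : BF 3, InCl G g ∧ g ![true, false, false] = true ∧ g ![true, false, true] = false) ∨
    ((∀ g ∈ G, g.2 (fun _ => false) = false) ∧ InCl G fOr ∧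
      ∃ q : BF 2, InCl G q ∧ q ![false, false] = false ∧ q ![true, false] = true ∧ q ![true, true] = false) ∨
    ((∀ g ∈ dualB G, g.2 (fun _ => false) = false) ∧ InCl (dualB G) fOr ∧
      ∃ q : BF 2, InCl (dualB G) q ∧ q ![false, false] = false ∧ q ![true, false] = true ∧
        q ![true, true] = false) ∨
    (InCl G fNot ∧ InCl G (fC false 1) ∧ InCl G fAnd)

end Pool.Agent.PB
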