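import Pool.Agent.helper64.PB.SpecB

/-!
# pb:* rows, block C: case (E) (linear simulation) and case (T)

`0`, `1` at vectors mean the constant vectors. In all rows the constant `c` depends only on `G`.
-/

set_option autoImplicit false

namespace Pool.Agent.PB

/-- RTP (medium). From SIM, ALA, SUB, APP, CLP. Relative complements below a top `t`. `fAnd(x,y) = fM(x,y,x)`, so
`b = allAnd n` has size `≤ c n` (ALA). Shadow: `S u x = if x = 1 then true else (t x && u x)`. With
`N(u,t,b) = fM(t,b,u)` (`t and (b or not u)`): at `x ≠ 1` (`b = 0`): `t and not u`; at `x = 1`: everything is 1 (`t(1) = 1`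
because `f(1) = 1`, `f ≤ t`). `Γn = N`, `Γa(u,v,t,b) = u and v`, `Γo = N(N(u) and N(v))`. `S(0) = b` (at `x ≠ 1` it is 0),
`S(1) = t`, `S(x_j) = t and x_j` (size `c` each, `n` of them). `S f = f` because `f ≤ t`, `f(1) = 1`. The program `l0`
consists of a program of `t` (`s'` gates), of `b` and of the `S(x_j)`. -/
def RTP_stmt : Prop :=
  ∀ G : Set Gate, InCl G fM → ∃ c : ℕ, ∀ (n : ℕ), 1 ≤ n → ∀ (t f : BF n) (s s' : ℕ),
    Size G t s' → (∀ x, f x = true → t x = true) → f (fun _ => true) = true → Size std f s →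
    Size G f (s' + c * (s + n))

/-- RT0 (short-medium). From SIM, CLP, SUB. The same with the constant 0 as bottom: `S u x = t x && u x`, `b` = the constant 0
(`fC false 1` applied to a variable), no condition at `x = 1`; `t = x_i`. -/
def RT0_stmt : Prop :=
  ∀ G : Set Gate, InCl G fM → InCl G (fC false 1) → ∃ c : ℕ, ∀ (n : ℕ) (f : BF n) (i : Fin n) (s : ℕ),
    (∀ x, f x = true → x i = true) → Size std f s → Size G f (c * (s + n))

/-- EST (short-medium). From RTP, RT0, PRP, CLP. Let all gates be `Star` and `fM ∈ [G]`, `f ∈ [G]`, `n ≥ 1`. Then `f` is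
`Star`. If `f(1) = 1` then `f ≤ x_i` for some `i`: RTP with `t = x_i`, `s' = 0`. If `f(1) = 0` then the constant 0 is in `[G]`
(substitute one variable for all variables in `f`, `f(0) = 0` as well) and `f = 0 ≤ x_0` or `f ≤ x_i`: RT0. -/
def EST_stmt : Prop :=
  ∀ G : Set Gate, (∀ g ∈ G, Star g.2) → InCl G fM →
    ∃ c : ℕ, ∀ n, 1 ≤ n → ∀ f : BF n, InCl G f → ∀ s, Size std f s → Size G f (c * (s + n))

/-- EID (medium). From SIM, ALA, ALO, APP. Idempotent functions. `S u x = if x = 0 then false else if x = 1 then true else u x`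
(`n ≥ 1`, so `0 ≠ 1`), `t = allOr n`, `b = allAnd n`, `Γa = fAnd`, `Γo = fOr`, `Γn(u,t,b) = g(t,b,u)`: at `x ≠ 0, 1` this is
`g(1,0,u) = not u`; at `x = 0` all are 0 and `g(0,0,0) = 0`; at `x = 1` all are 1. `S(0) = b`, `S(1) = t`, `S(x_j) = x_j`,
`S f = f`. -/
def EID_stmt : Prop :=
  ∀ (G : Set Gate) (g : BF 3), InCl G fAnd → InCl G fOr → InCl G g → g ![false, false, false] = false →
    g ![true, true, true] = true → g ![true, false, false] = true → g ![true, false, true] = false →
    ∃ c : ℕ, ∀ n, 1 ≤ n → ∀ f : BF n, f (fun _ => false) = false → f (fun _ => true) = true →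
      ∀ s, Size std f s → Size G f (c * (s + n))

/-- ET0 (medium). From SIM, ALO, APP, CLP. Functions with `f(0) = 0`. `S u x = if x = 0 then false else u x`, `t = allOr n`,
`b` = the constant 0 = `q(y,y)`. `Γo = fOr`, `Γn(u,t,b) = q(t,u)`, `Γa = q(t, q(t,u) or q(t,v))`: at `x ≠ 0`, `t = 1` and
`q(1,u) = not u`; at `x = 0` all are 0 and `q(0,0) = 0`. `S(0) = b`, `S(1) = t`, `S(x_j) = x_j`, `S f = f`. -/
def ET0_stmt : Prop :=
  ∀ (G : Set Gate) (q : BF 2), InCl G fOr → InCl G q → q ![false, false] = false → q ![true, false] = true →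
    q ![true, true] = false →
    ∃ c : ℕ, ∀ n, 1 ≤ n → ∀ f : BF n, f (fun _ => false) = false →
      ∀ s, Size std f s → Size G f (c * (s + n))

/-- EAL (short). From SIM (with `S u = u`) or TRB: all functions of `n ≥ 1` variables; the constants of `n` variables are
`fC false 1` applied to `x_0` and its negation. -/
def EAL_stmt : Prop :=
  ∀ G : Set Gate, InCl G fNot → InCl G (fC false 1) → InCl G fAnd →
    ∃ c : ℕ, ∀ n, 1 ≤ n → ∀ f : BF n, ∀ s, Size std f s → Size G f (c * (s + n))

/-- The function which is `x_0` if all coordinates of `x` are equal and `not x_0` otherwise (`n + 1` variables). -/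
def fNE (n : ℕ) : BF (n + 1) := fun x => if (∀ i, x i = x 0) then x 0 else !(x 0)

/-- SEL (medium). From SUB, APP. `fNE 0 = x_0`, and `fNE (n+1) (x) = fD(x_(n+1), fNE n (x_0..x_n), x_0)`: if `x_(n+1) = x_0`
this is `maj(x_0, w, not x_0) = w`; if not it is `not x_0`. For the size: in `N + 1` variables consider the functions
`w_k(x) =` (`x_0` if `x_0 = ... = x_k`, `not x_0` otherwise), `k ≤ N`; `w_(k+1) = fD(x_(k+1), w_k, x_0)` (SUB, `≤ c` gates
each, `c` = size of `fD`). -/
def SEL_stmt : Prop :=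
  ∀ G : Set Gate, InCl G fD → ∃ c : ℕ, ∀ n, Size G (fNE n) (c * (n + 1))

/-- ESD (medium). From SIM, SEL, APP, CLP. Self-dual idempotent functions. Shadow: `S u x = x_0` if `x` is constant, `u x` if
`x` is not constant and `x_0 = 0`, `not u(not x)` if `x` is not constant and `x_0 = 1`. `t = x_0`, `b = fNE`:
`Γn(u,t,b) = fD(t,b,u)`, `Γa = maj(u,v,t)`, `Γo = maj(u,v,b)` (`maj(x,y,z) = fD(x,y,fD(x,y,z))`). Not constant, `x_0 = 0`:
`t = 0`, `b = 1`: `fD(0,1,u) = not u`, `maj(u,v,0) = u and v`, `maj(u,v,1) = u or v`; `x_0 = 1`: `t = 1`, `b = 0`, dual.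
Constant `x`: all shadows and `t`, `b` are `x_0` and the three functions return it. `S(0) = t`, `S(1) = b`, `S(x_j) = x_j`,
`S f = f`. -/
def ESD_stmt : Prop :=
  ∀ G : Set Gate, InCl G fD → ∃ c : ℕ, ∀ n, 1 ≤ n → ∀ f : BF n, SelfDual f → f (fun _ => false) = false →
    ∀ s, Size std f s → Size G f (c * (s + n))

/-- ESE (short). From ESD, PRP, CLP, CMP. `[G]` self-dual, `fD ∈ [G]`, `f ∈ [G]`: if `f(0) = 0` ESD. If `f(0) = 1` then
`fNot ∈ [G]` (substitute one variable for all; `f(1) = not f(0) = 0`), and ESD applies to `not f` (size `≤ s + 1` over `std`),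
then negate. -/
def ESE_stmt : Prop :=
  ∀ G : Set Gate, (∀ g ∈ G, SelfDual g.2) → InCl G fD →
    ∃ c : ℕ, ∀ n, 1 ≤ n → ∀ f : BF n, InCl G f → ∀ s, Size std f s → Size G f (c * (s + n))

/-- ETH (short-medium). From CSE, EST, EID, ET0, EAL, ESE, DUA, PRP. Case (E): linear simulation. In the dual cases apply the
row to `dualB G` and `dual f`. In the idempotent case the minor `g` satisfies `g(0,0,0) = 0`, `g(1,1,1) = 1` and `f(0) = 0`,
`f(1) = 1` by PRP. -/
def ETH_stmt : Prop :=
  ∀ G : Set Gate, ¬ Trivial G → ¬ Weak G →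
    ∃ c : ℕ, ∀ n, 1 ≤ n → ∀ f : BF n, InCl G f → ∀ s, Size std f s → Size G f (c * (s + n))

/-- TAF (medium). From PRP, CLP, SUB, CMP. All gates affine, so all of `[G]`: `f = γ + ∑_{i ∈ A} x_i`. If all functions in
`[G]` depend on at most one variable: `f(x) = u(x_i)` with `u(y) = f(y,..,y) ∈ [G]`, so the size is at most the maximum `c` of
the sizes of the unary functions in `[G]` (at most 4). Otherwise `p(x,y,z) = x + y + z ∈ [G]`: take `f ∈ [G]` with `#A ≥ 2`;
if `#A` is odd substitute `x`, `y` for one element each and `z` for the rest of `A` (anything outside `A`): `γ + x + y + z`; if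
`γ = 1` put `y = z = x`: `1 + x ∈ [G]`, add it. If `#A` is even: `γ + x + y`, composed with itself `γ + (γ + x + y) + z`.
Now let `f ∈ [G]`. `#A` odd: `∑_A x_i` by `(#A - 1)/2` copies of `p`, then (if `γ = 1`) the unary function `f(y,..,y) = γ + y`.
`#A` even, `A ≠ ∅`: `i ∈ A`; the binary function `γ + x + y ∈ [G]` (a minor of `f`) applied to `x_i` and `∑_{A - i}`.
`A = ∅`: the unary function `f(y,..,y)`, `y = x_0`. All sizes are `≤ c n` (finitely many functions of `≤ 3` variables). -/
def TAF_stmt : Prop :=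
  ∀ G : Set Gate, (∀ g ∈ G, Affine g.2) → ∃ c : ℕ, ∀ n, 1 ≤ n → ∀ f : BF n, InCl G f → Size G f (c * n)

/-- TCO (short-medium). From PRP, CLP, SUB. All of `[G]` are conjunctions of variables or constants (a `Conj` function which
is not constant is the conjunction of the variables `x_i` with `f(1 - e_i) = 0`). Constant: the unary function `f(y,..,y)`.
One variable: size 0. At least two: `fAnd` is a minor of `f`, and `#A - 1` conjunctions. -/
def TCO_stmt : Prop :=
  ∀ G : Set Gate, (∀ g ∈ G, Conj g.2) → ∃ c : ℕ, ∀ n, 1 ≤ n → ∀ f : BF n, InCl G f → Size G f (c * n)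

/-- TTH (short). From TAF, TCO, DUA. -/
def TTH_stmt : Prop :=
  ∀ G : Set Gate, Trivial G → ∃ c : ℕ, ∀ n, 1 ≤ n → ∀ f : BF n, InCl G f → Size G f (c * n)

end Pool.Agent.PB
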