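import Pool.Agent.helper64.PB.SpecC

/-!
# pb:* rows, block W: case (W), the gap between `G`-circuits and ordinary circuits is at least the monotone gap
-/

set_option autoImplicit false

namespace Pool.Agent.PB

/-- UPC (short-medium). From MTR. For a gate `g` with `Inter k` (`k ≥ 1`) the up-closure `g⁺ x = [∃ y ≤ x, g y = 1]` is
monotone, has `Inter k` (choose ones of `g` below the given ones of `g⁺`) and `g ≤ g⁺`. Replace every gate `g` of a program
by `g⁺`: the functions `u` of the program become `u⁺ ≥ u` (induction: `g(a_1..) ≤ g⁺(a_1..) ≤ g⁺(a_1⁺..)`), monotone and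
`Inter k` (closed under composition, as in PRP), over the finite basis `{g⁺}`; apply MTR. A variable is its own `u⁺`. -/
def UPC_stmt : Prop :=
  ∀ (G : Set Gate) (k : ℕ), G.Finite → 1 ≤ k → (∀ g ∈ G, Inter k g.2) →
    ∃ c : ℕ, ∀ (n : ℕ) (f : BF n) (s : ℕ), Size G f s →
      ∃ u : BF n, Mono u ∧ Inter k u ∧ (∀ x, f x = true → u x = true) ∧ Size mon u (c * s)

/-- BKP (short-medium). From CLP. Baker-Pixley. Claim: for every finite set `S` of points such that any `k` of them have a
common coordinate 1 there is `t ∈ [G]` with `t = 1` on `S`. If `#S ≤ k`: a variable (`n ≥ 1` if `S = ∅`). If `#S > k`: choose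
`k + 1` different points `s_0, ..., s_k` of `S`, functions `t_j` for `S - s_j` (induction), and `t = fT k (t_0, ..., t_k)`: every
point of `S` is missing in at most one of the sets. Apply it to the ones of `f`. -/
def BKP_stmt : Prop :=
  ∀ (G : Set Gate) (k : ℕ), 2 ≤ k → InCl G (fT k) → ∀ n, 1 ≤ n → ∀ f : BF n, Inter k f →
    ∃ t : BF n, InCl G t ∧ ∀ x, f x = true → t x = true

/-- S12 (short). From BKP, RTP, DNF: every `f` with `Inter k` and `f(1) = 1` is in `[G]` (`n ≥ 1` follows: `k` times the point
`1` have a common coordinate). -/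
def S12_stmt : Prop :=
  ∀ (G : Set Gate) (k : ℕ), 2 ≤ k → InCl G fM → InCl G (fT k) → ∀ (n : ℕ) (f : BF n), Inter k f →
    f (fun _ => true) = true → InCl G f

/-- The numbering of the variables of `fH`: `k + 1` blocks of `n` variables and `k + 2` further variables `e_0, ..., e_(k+1)`. -/
def eH (k n : ℕ) : (Fin (k + 1) × Fin n) ⊕ Fin (k + 2) ≃ Fin ((k + 1) * n + (k + 2)) :=
  (Equiv.sumCongr finProdFinEquiv (Equiv.refl _)).trans finSumFinEquiv

/-- The hard function for `Inter (k + 2)`. Its ones: the vector of ones; the vectors `(x, ..., x; e)` with `h x = 1`,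
`e = (1, ..., 1, 0)`; for every block `j` the vectors with `w` in the block `j`, ones in the other blocks, all `e_m = 1` except
`e_j = 0`, with `h(not w) = 0`. -/
def fH (k n : ℕ) (h : BF n) : BF ((k + 1) * n + (k + 2)) := fun z =>
  let x : Fin (k + 1) → Fin n → Bool := fun j i => z (eH k n (Sum.inl (j, i)))
  let e : Fin (k + 2) → Bool := fun m => z (eH k n (Sum.inr m))
  decide (∀ i, z i = true) ||
    (decide (∀ m, e m = !(decide (m = Fin.last (k + 1)))) && decide (∀ j i, x j i = x 0 i) && h (x 0)) ||
    decide (∃ j : Fin (k + 1), (∀ m, e m = !(decide (m = j.castSucc))) ∧ (∀ j' i, j' ≠ j → x j' i = true) ∧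
      h (fun i => !(x j i)) = false)

/-- HIN (medium). `fH` has `Inter (k + 2)` and value 1 at the vector of ones. Give the one of the second kind the type
`k + 1` (last), a one of the third kind with block `j` the type `j`; a one of type `m` has `e_m = 0` and all other `e` equal to
1, the vector of ones has all coordinates 1. Among `k + 2` ones (`a_0, ..., a_(k+1)`) either some type `m` does not occur, then
all have `e_m = 1`. Or every type occurs exactly once (and the vector of ones does not occur): one `(x, ..., x; ..)` with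
`h x = 1`, and for the block 0 one with `w` in block 0, `h(not w) = 0`; as `h` is monotone `x ≤ not w` fails, so `x_i = w_i = 1`
for some `i`; the coordinate `(0, i)` is 1 in all of them (all others have ones in block 0). -/
def HIN_stmt : Prop :=
  ∀ (k n : ℕ) (h : BF n), Mono h → Inter (k + 2) (fH k n h) ∧ fH k n h (fun _ => true) = true

/-- HLO (short-medium). The lower bound. `u` monotone with `Inter (k + 2)`, `fH ≤ u`: then `u(x, ..., x; 1, ..., 1, 0) = h x`. If
`h x = 1` it is a one of `fH`. If `h x = 0` consider for every block `j` the one of the third kind with `w = not x`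
(`h(not w) = h x = 0`): `k + 1` ones of `u`; if `u(x, ..., x; 1..1,0) = 1` these are `k + 2` ones of `u`; a common coordinate:
not `e_m` (`e_j = 0` for type `j ≤ k`, `e_(k+1) = 0` for the last), not `(j, i)` (`x_i` and `not x_i` both occur). -/
def HLO_stmt : Prop :=
  ∀ (k n : ℕ) (h : BF n) (u : BF ((k + 1) * n + (k + 2))), Inter (k + 2) u →
    (∀ z, fH k n h z = true → u z = true) →
    ∀ x : Fin n → Bool, u (fun i => (Sum.elim (fun p => x p.2) fun m => !(decide (m = Fin.last (k + 1))))
      ((eH k n).symm i)) = h x

/-- HUP (medium). Circuits for `fH`, `k` fixed: conjunctions of `O(k n)` literals and equalities, `h(x_0)`, and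
`h(not x_j)` for every block `j` (SUB): `(k + 2) s + c (n + 1)` gates; all pieces have size `≤ c (s + n + 1)` and there are
boundedly many of them (`k` is a constant). (Use CMP, DNF for the fixed outer function, ALA for conjunctions, or TRB.) -/
def HUP_stmt : Prop :=
  ∀ k : ℕ, ∃ c : ℕ, ∀ (n : ℕ) (h : BF n), 1 ≤ n → ∀ s, Size std h s → Size std (fH k n h) (c * (s + n))

/-- RST (short). From SUB. Restriction: if `u : BF m` has size `s` over `mon` and every variable of `u` is replaced by a
variable of `h` or a constant, the result has size `≤ s + 2` over `mon` (two constant gates, SUB). The same for `std`. -/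
def RST_stmt : Prop :=
  ∀ (m n : ℕ) (u : BF m) (s : ℕ) (φ : Fin m → BF n), (∀ i, (∃ j, φ i = fun x => x j) ∨ ∃ v, φ i = fC v n) →
    (Size mon u s → Size mon (fun x => u fun i => φ i x) (s + 2)) ∧
    (Size std u s → Size std (fun x => u fun i => φ i x) (s + 2))

/-- The statement of case (W): for every monotone `h` there is `f ∈ [G]` of `m ≤ c n` variables with
`L(f) ≤ c (L(h) + n)` and `Lmon(h) ≤ c (L_G(f) + 1)`. -/
def GapProp (G : Set Gate) : Prop :=
  ∃ c : ℕ, ∀ (n : ℕ) (h : BF n), 1 ≤ n → Mono h → ∃ m, 1 ≤ m ∧ m ≤ c * n ∧ ∃ f : BF m, InCl G f ∧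
    (∀ s, Size std h s → Size std f (c * (s + n))) ∧ ∀ s, Size G f s → Size mon h (c * (s + 1))

/-- WIN (short-medium). From UPC, S12, HIN, HLO, HUP, RST, MXK, NMI, TKI. Not all gates monotone and `Gap G`: `k + 2` = the
largest number of MXK; `fM, fAnd ∈ [G]` (NMI, as `Inter (k+2)` implies `Inter 2`), `fT (k + 2) ∈ [G]` (TKI), `f = fH k n h ∈ [G]`
(S12). A `G`-circuit of size `s` gives `u` (UPC), and `h` is a restriction of `u` (HLO, RST). -/
def WIN_stmt : Prop :=
  ∀ G : Set Gate, G.Finite → (∃ g ∈ G, ¬ Mono g.2) → Gap G → GapProp G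

/-- GDU (short). From DUA: `GapProp (dualB G)` implies `GapProp G`: apply it to the dual of `h` (monotone, same sizes) and
take the dual of the function obtained. -/
def GDU_stmt : Prop := ∀ G : Set Gate, GapProp (dualB G) → GapProp G

/-- WAO (medium). From CLP, MTR, CMP, RST. `x and (y or z) ∈ [G]`, all gates monotone. For nonconstant monotone `h` the
function `f(x, e) = e and h(x)` (`n + 1` variables, `e` the last one) is in `[G]`: `e and u`, `e and (u or v)` are available, and
`h` is a nonempty disjunction of nonempty conjunctions of variables: by induction over the ones of `h`. Setting `e = 1` (RST) in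
the monotone circuit of MTR gives `Lmon(h) ≤ c L_G(f) + 2`. For constant `h` take `f = x_0`, `m = 1`. -/
def WAO_stmt : Prop :=
  ∀ G : Set Gate, G.Finite → (∀ g ∈ G, Mono g.2) → InCl G fAO → GapProp G

/-- SDG (medium). From CLP. Every monotone self-dual function of `n ≥ 1` variables is in `[G]` if `fMaj ∈ [G]`. Induction
on `n`. For `n ≤ 2` the function is a variable. For `n ≥ 3`: `f = maj(A, B, C)`, where `A`, `B`, `C` arise from `f` by
replacing `x_1` by `x_0`, `x_2` by `x_1`, `x_0` by `x_2` respectively (each is a function of fewer variables, monotone and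
self-dual). Check: if `x_0 = x_1 = x_2` all are equal to `f(x)`. Otherwise two of the three bits are `v` and the third is
`not v`; if `x_0 = x_1 = v`, `x_2 = not v`: `A = f(x)`, `B` is the value with `x_2` replaced by `v`, `C` the value with `x_0`
replaced by `not v`; if `v = 1` then `C ≤ f(x) ≤ B`, if `v = 0` then `B ≤ f(x) ≤ C`; in both cases `maj(f(x), B, C) = f(x)`.
The other two cases are the same with `A, B, C` permuted cyclically. -/
def SDG_stmt : Prop :=
  ∀ G : Set Gate, InCl G fMaj → ∀ n, 1 ≤ n → ∀ f : BF n, Mono f → SelfDual f → InCl G f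

/-- WMJ (medium). From SDG, MTR, CMP, RST. `fMaj ∈ [G]`, all gates monotone. `f(x, a, b)` = `a` if `a = b`, `h(x)` if `a = 1`,
`b = 0`, `not h(not x)` if `a = 0`, `b = 1` (`n + 2` variables): monotone, self-dual, so in `[G]`; `L(f) ≤ c (L(h) + n)`; `a = 1`,
`b = 0` gives `h`. (Also for constant `h`.) -/
def WMJ_stmt : Prop :=
  ∀ G : Set Gate, G.Finite → (∀ g ∈ G, Mono g.2) → InCl G fMaj → GapProp G

/-- WTH (short). From MON, WAO, WMJ, WIN, GDU, DUA. `Weak G` implies `GapProp G`. All gates monotone: MON; `fAO`: WAO; `fOA`: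
its dual is `fAO`, so WAO for `dualB G` and GDU; `fMaj`: WMJ. Otherwise some gate is not monotone (neither in `G` nor in
`dualB G`) and `Gap G`: WIN, or `Gap (dualB G)`: WIN and GDU. -/
def WTH_stmt : Prop := ∀ G : Set Gate, G.Finite → Weak G → GapProp G

end Pool.Agent.PB
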